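import Mathlib

set_option autoImplicit false

namespace Pool.Agent.Helper825.RC

open MvPolynomial

/-! ### Projective schemes `X = V(S)` over a field `K`, `S` a set of homogeneous equations -/

/-- `v` is a zero of all the equations of `S` (a point of the cone over `X`, with coordinates
in an extension `L` of `K`) -/
def Zero (K L : Type) [Field K] [Field L] [Algebra K L] {ι : Type} (S : Set (MvPolynomial ι K))
    (v : ι → L) : Prop :=
  ∀ f ∈ S, aeval v f = 0

/-- the ideal generated by `S` over the extension `L` -/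
noncomputable def idealL (K L : Type) [Field K] [Field L] [Algebra K L] {ι : Type}
    (S : Set (MvPolynomial ι K)) : Ideal (MvPolynomial ι L) :=
  Ideal.span (MvPolynomial.map (algebraMap K L) '' S)

/-- Jacobian criterion: near each geometric point the scheme `X` is cut out by `c` equations
with linearly independent gradients -/
def SmoothCodim (K : Type) [Field K] {ι : Type} (S : Set (MvPolynomial ι K)) (c : ℕ) : Prop :=
  ∀ v : ι → AlgebraicClosure K, v ≠ 0 → Zero K (AlgebraicClosure K) S v →
    ∃ f : Fin c → MvPolynomial ι (AlgebraicClosure K),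
      (∀ j, f j ∈ idealL K (AlgebraicClosure K) S) ∧
      LinearIndependent (AlgebraicClosure K) (fun j => fun i => eval v (pderiv i (f j))) ∧
      ∃ h : MvPolynomial ι (AlgebraicClosure K), eval v h ≠ 0 ∧
        ∀ g ∈ idealL K (AlgebraicClosure K) S, h * g ∈ Ideal.span (Set.range f)

/-- the geometric points form a nonempty irreducible set -/
def GeomIrred (K : Type) [Field K] {ι : Type} (S : Set (MvPolynomial ι K)) : Prop :=
  (∃ v : ι → AlgebraicClosure K, v ≠ 0 ∧ Zero K (AlgebraicClosure K) S v) ∧
  ∀ f g : MvPolynomial ι (AlgebraicClosure K),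
    (∀ v, Zero K (AlgebraicClosure K) S v → eval v f * eval v g = 0) →
    (∀ v, Zero K (AlgebraicClosure K) S v → eval v f = 0) ∨
    (∀ v, Zero K (AlgebraicClosure K) S v → eval v g = 0)

/-- `P` and `Q` lie on the image of a morphism from the projective line to `X`, given by
polynomials `φ i` of degree at most `d` in a coordinate of the line, without common zero, not all
of degree less than `d` -/
def OnRatCurve (K L : Type) [Field K] [Field L] [Algebra K L] {ι : Type}
    (S : Set (MvPolynomial ι K)) (P Q : ι → L) : Prop :=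
  ∃ (φ : ι → Polynomial L) (d : ℕ), (∀ i, (φ i).natDegree ≤ d) ∧ (∃ i, (φ i).coeff d ≠ 0) ∧
    (∀ s : L, ∃ i, (φ i).eval s ≠ 0) ∧ (∀ f ∈ S, aeval φ f = 0) ∧
    (∃ s a : L, a ≠ 0 ∧ ∀ i, (φ i).eval s = a * P i) ∧
    (∃ s a : L, a ≠ 0 ∧ ∀ i, (φ i).eval s = a * Q i)

/-- two general geometric points lie on a rational curve -/
def RatConn (K : Type) [Field K] {ι : Type} (S : Set (MvPolynomial ι K)) : Prop :=
  ∃ h : MvPolynomial ι (AlgebraicClosure K), (∃ n, h.IsHomogeneous n) ∧
    (∃ v, v ≠ 0 ∧ Zero K (AlgebraicClosure K) S v ∧ eval v h ≠ 0) ∧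
    ∀ P Q : ι → AlgebraicClosure K, P ≠ 0 → Q ≠ 0 → Zero K (AlgebraicClosure K) S P →
      Zero K (AlgebraicClosure K) S Q → eval P h ≠ 0 → eval Q h ≠ 0 →
      OnRatCurve K (AlgebraicClosure K) S P Q

/-- the rational points are Zariski dense -/
def DensePts (K : Type) [Field K] {ι : Type} (S : Set (MvPolynomial ι K)) : Prop :=
  ∀ g : MvPolynomial ι K, (∃ n, g.IsHomogeneous n) →
    (∀ v : ι → K, v ≠ 0 → Zero K K S v → eval v g = 0) →
    ∀ v : ι → AlgebraicClosure K, v ≠ 0 → Zero K (AlgebraicClosure K) S v → aeval v g = 0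

end Pool.Agent.Helper825.RC
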