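import Mathlib
import Pool.Agent.Helper825.RC.Base

set_option autoImplicit false

namespace Pool.Agent.Helper825.RC

section Pts
open Polynomial

/-- decimation of a polynomial -/
noncomputable def dec {k : Type} [Field k] (q j : ℕ) (Z : k[X]) : k[X] :=
  ∑ m ∈ Finset.range (Z.natDegree / q + 1), monomial m (Z.coeff (j + q * m))

theorem dec_coeff {k : Type} [Field k] {q : ℕ} (hq : 0 < q) (j : ℕ) (Z : k[X]) (m : ℕ) :
    (dec q j Z).coeff m = Z.coeff (j + q * m) := by
  unfold dec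
  rw [finsetSum_coeff]
  simp only [coeff_monomial]
  rw [Finset.sum_ite_eq']
  split_ifs with h
  · rfl
  · symm
    apply coeff_eq_zero_of_natDegree_lt
    rw [Finset.mem_range, not_lt] at h
    have h1 : Z.natDegree < q * (Z.natDegree / q + 1) := by
      have := Nat.lt_mul_div_succ Z.natDegree hq
      exact this
    have h2 : q * (Z.natDegree / q + 1) ≤ q * m := Nat.mul_le_mul_left q h
    omega

theorem dec_natDegree {k : Type} [Field k] {q : ℕ} (hq : 0 < q) (j : ℕ) (Z : k[X]) :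
    (dec q j Z).natDegree ≤ Z.natDegree / q := by
  rw [natDegree_le_iff_coeff_eq_zero]
  intro m hm
  rw [dec_coeff hq]
  apply coeff_eq_zero_of_natDegree_lt
  have h1 : Z.natDegree < q * (Z.natDegree / q + 1) := Nat.lt_mul_div_succ Z.natDegree hq
  have h2 : q * (Z.natDegree / q + 1) ≤ q * m := Nat.mul_le_mul_left q hm
  omega

theorem coeff_sum_expand {k : Type} [Field k] {q : ℕ} (hq : 0 < q) (B : ℕ → k[X]) (n : ℕ) :
    (∑ j ∈ Finset.range q, X ^ j * expand k q (B j)).coeff n = (B (n % q)).coeff (n / q) := by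
  rw [finsetSum_coeff, Finset.sum_eq_single (n % q)]
  · rw [coeff_X_pow_mul', if_pos (Nat.mod_le n q), coeff_expand hq]
    have h1 : q ∣ n - n % q := Nat.dvd_sub_mod n
    rw [if_pos h1]
    congr 1
    have h2 : n - n % q = q * (n / q) := by
      have := Nat.mod_add_div n q
      omega
    rw [h2, Nat.mul_div_cancel_left _ hq]
  · intro j hj hne
    rw [Finset.mem_range] at hj
    rw [coeff_X_pow_mul']
    split_ifs with h
    · rw [coeff_expand hq, if_neg]
      rintro ⟨c, hc⟩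
      apply hne
      have : n = j + q * c := by omega
      rw [this, Nat.add_mul_mod_self_left, Nat.mod_eq_of_lt hj]
    · rfl
  · intro h
    exact absurd (Finset.mem_range.mpr (Nat.mod_lt n hq)) h

theorem dec_sum {k : Type} [Field k] {q : ℕ} (hq : 0 < q) (Z : k[X]) :
    ∑ j ∈ Finset.range q, X ^ j * expand k q (dec q j Z) = Z := by
  ext n
  rw [coeff_sum_expand hq, dec_coeff hq, Nat.mod_add_div]

theorem dec_unique {k : Type} [Field k] {q : ℕ} (hq : 0 < q) (B : ℕ → k[X])
    (h : ∑ j ∈ Finset.range q, X ^ j * expand k q (B j) = 0) (j : ℕ) (hj : j < q) : B j = 0 := by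
  ext m
  have h1 := coeff_sum_expand hq B (j + q * m)
  rw [h, coeff_zero, Nat.add_mul_mod_self_left, Nat.mod_eq_of_lt hj,
    Nat.add_mul_div_left _ _ hq, Nat.div_eq_of_lt hj, zero_add] at h1
  rw [← h1, coeff_zero]

/-- the substitution `T ↦ -T` -/
noncomputable def bar {k : Type} [Field k] (f : k[X]) : k[X] := f.comp (-X)

theorem bar_add {k : Type} [Field k] (f g : k[X]) : bar (f + g) = bar f + bar g := add_comp
theorem bar_mul {k : Type} [Field k] (f g : k[X]) : bar (f * g) = bar f * bar g := mul_comp _ _ _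
theorem bar_zero {k : Type} [Field k] : bar (0 : k[X]) = 0 := zero_comp

theorem bar_bar {k : Type} [Field k] (f : k[X]) : bar (bar f) = f := by
  unfold bar
  rw [comp_assoc]
  simp

theorem bar_inj {k : Type} [Field k] {f : k[X]} (h : bar f = 0) : f = 0 := by
  rw [← bar_bar f, h, bar_zero]

theorem bar_natDegree {k : Type} [Field k] (f : k[X]) : (bar f).natDegree = f.natDegree := by
  unfold bar
  rw [natDegree_comp]
  simp

/-- the equation -/
def Eq0 {k : Type} [Field k] (q : ℕ) (x y z : k[X]) : Prop :=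
  x ^ q * bar x + y ^ q * bar y + z ^ q * bar z = 0

/-- proportional triples -/
def Prp {k : Type} [Field k] (x y z u v w : k[X]) : Prop :=
  y * w = z * v ∧ z * u = x * w ∧ x * v = y * u

theorem Prp.trans {k : Type} [Field k] {x y z u v w a b c : k[X]} (h1 : Prp x y z u v w)
    (hne : ¬ (u = 0 ∧ v = 0 ∧ w = 0)) (h2 : Prp u v w a b c) : Prp x y z a b c := by
  obtain ⟨p1, p2, p3⟩ := h1
  obtain ⟨q1, q2, q3⟩ := h2
  by_cases hu : u = 0
  · by_cases hv : v = 0
    · have hw : w ≠ 0 := fun hw => hne ⟨hu, hv, hw⟩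
      refine ⟨?_, ?_, ?_⟩ <;> apply mul_left_cancel₀ hw
      · linear_combination c * p1 + z * q1
      · linear_combination c * p2 + z * q2
      · linear_combination -b * p2 - a * p1 + z * q3
    · refine ⟨?_, ?_, ?_⟩ <;> apply mul_left_cancel₀ hv
      · linear_combination y * q1 + b * p1
      · linear_combination -a * p1 - c * p3 + y * q2
      · linear_combination b * p3 + y * q3
  · refine ⟨?_, ?_, ?_⟩ <;> apply mul_left_cancel₀ hu
    · linear_combination -c * p3 + x * q1 - b * p2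
    · linear_combination a * p2 + x * q2
    · linear_combination x * q3 + a * p3

theorem eq0_scale {k : Type} [Field k] {q : ℕ} {x y z u v w l m : k[X]} (hl : l ≠ 0)
    (h1 : l * u = m * x) (h2 : l * v = m * y) (h3 : l * w = m * z) (hE : Eq0 q x y z) :
    Eq0 q u v w := by
  have hlb : bar l ≠ 0 := fun h => hl (bar_inj h)
  have h : l ^ q * bar l ≠ 0 := mul_ne_zero (pow_ne_zero _ hl) hlb
  apply (mul_eq_zero.mp _).resolve_left h
  have e1 : l ^ q * u ^ q = m ^ q * x ^ q := by rw [← mul_pow, h1, mul_pow]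
  have e2 : l ^ q * v ^ q = m ^ q * y ^ q := by rw [← mul_pow, h2, mul_pow]
  have e3 : l ^ q * w ^ q = m ^ q * z ^ q := by rw [← mul_pow, h3, mul_pow]
  have f1 : bar l * bar u = bar m * bar x := by rw [← bar_mul, h1, bar_mul]
  have f2 : bar l * bar v = bar m * bar y := by rw [← bar_mul, h2, bar_mul]
  have f3 : bar l * bar w = bar m * bar z := by rw [← bar_mul, h3, bar_mul]
  have hE' : x ^ q * bar x + y ^ q * bar y + z ^ q * bar z = 0 := hE
  calc l ^ q * bar l * (u ^ q * bar u + v ^ q * bar v + w ^ q * bar w)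
      = (l ^ q * u ^ q) * (bar l * bar u) + (l ^ q * v ^ q) * (bar l * bar v)
        + (l ^ q * w ^ q) * (bar l * bar w) := by ring
    _ = m ^ q * bar m * (x ^ q * bar x + y ^ q * bar y + z ^ q * bar z) := by
        rw [e1, e2, e3, f1, f2, f3]; ring
    _ = 0 := by rw [hE', mul_zero]

theorem prp_of_bar {p : ℕ} [Fact p.Prime] {x y z : (ZMod p)[X]} {a b c : ZMod p} {q : ℕ}
    {u v w : (ZMod p)[X]}
    (h : Prp (bar x) (bar y) (bar z) (u ^ q) (v ^ q) (w ^ q)) (hq : q = p)
    (hne : ¬ (u = 0 ∧ v = 0 ∧ w = 0)) (hc : Prp u v w (C a) (C b) (C c)) :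
    Prp x y z (C a) (C b) (C c) := by
  have h1 : Prp (u ^ q) (v ^ q) (w ^ q) (C a) (C b) (C c) := by
    obtain ⟨h1, h2, h3⟩ := hc
    have e : ∀ d : ZMod p, (C d : (ZMod p)[X]) ^ q = C d := by
      intro d
      rw [← C_pow, hq, ZMod.pow_card]
    refine ⟨?_, ?_, ?_⟩
    · rw [← e c, ← e b, ← mul_pow, h1, mul_pow]
    · rw [← e c, ← e a, ← mul_pow, h2, mul_pow]
    · rw [← e a, ← e b, ← mul_pow, h3, mul_pow]
  have hne' : ¬ (u ^ q = 0 ∧ v ^ q = 0 ∧ w ^ q = 0) := by
    rintro ⟨h1, h2, h3⟩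
    exact hne ⟨IsReduced.eq_zero _ ⟨q, h1⟩, IsReduced.eq_zero _ ⟨q, h2⟩,
      IsReduced.eq_zero _ ⟨q, h3⟩⟩
  obtain ⟨h1, h2, h3⟩ := h.trans hne' h1
  have eb : ∀ d : ZMod p, bar (C d) = C d := fun d => by unfold bar; rw [C_comp]
  refine ⟨?_, ?_, ?_⟩
  · have := congrArg bar h1
    rwa [bar_mul, bar_mul, bar_bar, bar_bar, eb, eb] at this
  · have := congrArg bar h2
    rwa [bar_mul, bar_mul, bar_bar, bar_bar, eb, eb] at this
  · have := congrArg bar h3
    rwa [bar_mul, bar_mul, bar_bar, bar_bar, eb, eb] at this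

theorem main_pts (p : ℕ) [Fact p.Prime] (hp : 3 ≤ p) (n : ℕ) :
    ∀ x y z : (ZMod p)[X], x.natDegree ≤ n →
      y.natDegree ≤ n → z.natDegree ≤ n → ¬ (x = 0 ∧ y = 0 ∧ z = 0) →
      Eq0 p x y z → ∃ a b c : ZMod p, ¬ (a = 0 ∧ b = 0 ∧ c = 0) ∧
        Prp x y z (C a) (C b) (C c) := by
  induction n using Nat.strong_induction_on with
  | _ n ih =>
  intro x y z hx hy hz hne hE
  rcases Nat.eq_zero_or_pos n with hn | hn
  · subst hn
    rw [eq_C_of_natDegree_le_zero hx, eq_C_of_natDegree_le_zero hy,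
      eq_C_of_natDegree_le_zero hz]
    refine ⟨x.coeff 0, y.coeff 0, z.coeff 0, ?_, mul_comm _ _, mul_comm _ _, mul_comm _ _⟩
    rintro ⟨h1, h2, h3⟩
    apply hne
    rw [eq_C_of_natDegree_le_zero hx, eq_C_of_natDegree_le_zero hy,
      eq_C_of_natDegree_le_zero hz, h1, h2, h3]
    simp
  have hq0 : 0 < p := by omega
  have hdeg : n / p ≤ n / 3 := Nat.div_le_div_left hp (by norm_num)
  have hlt1 : n / p < n := by omega
  have hlt2 : 2 * (n / p) < n := by omega
  set Z1 := bar x with hZ1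
  set Z2 := bar y with hZ2
  set Z3 := bar z with hZ3
  have dZ1 : Z1.natDegree ≤ n := by rw [hZ1, bar_natDegree]; exact hx
  have dZ2 : Z2.natDegree ≤ n := by rw [hZ2, bar_natDegree]; exact hy
  have dZ3 : Z3.natDegree ≤ n := by rw [hZ3, bar_natDegree]; exact hz
  set A := fun j => dec p j Z1 with hA
  set B := fun j => dec p j Z2 with hB
  set D := fun j => dec p j Z3 with hD
  have dA : ∀ j, (A j).natDegree ≤ n / p := fun j =>
    (dec_natDegree hq0 j Z1).trans (Nat.div_le_div_right dZ1)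
  have dB : ∀ j, (B j).natDegree ≤ n / p := fun j =>
    (dec_natDegree hq0 j Z2).trans (Nat.div_le_div_right dZ2)
  have dD : ∀ j, (D j).natDegree ≤ n / p := fun j =>
    (dec_natDegree hq0 j Z3).trans (Nat.div_le_div_right dZ3)
  have sA : ∀ g, ∑ j ∈ Finset.range p, X ^ j * expand (ZMod p) p (A j * g) = Z1 * g ^ p := by
    intro g
    have h1 := dec_sum hq0 Z1
    conv_rhs => rw [← h1, Finset.sum_mul]
    refine Finset.sum_congr rfl fun j _ => ?_
    rw [map_mul, ZMod.expand_card g]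
    ring
  have sB : ∀ g, ∑ j ∈ Finset.range p, X ^ j * expand (ZMod p) p (B j * g) = Z2 * g ^ p := by
    intro g
    have h1 := dec_sum hq0 Z2
    conv_rhs => rw [← h1, Finset.sum_mul]
    refine Finset.sum_congr rfl fun j _ => ?_
    rw [map_mul, ZMod.expand_card g]
    ring
  have sD : ∀ g, ∑ j ∈ Finset.range p, X ^ j * expand (ZMod p) p (D j * g) = Z3 * g ^ p := by
    intro g
    have h1 := dec_sum hq0 Z3
    conv_rhs => rw [← h1, Finset.sum_mul]
    refine Finset.sum_congr rfl fun j _ => ?_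
    rw [map_mul, ZMod.expand_card g]
    ring
  have horth : ∀ j < p, A j * x + B j * y + D j * z = 0 := by
    apply dec_unique hq0 (fun j => A j * x + B j * y + D j * z)
    have : ∀ j, X ^ j * expand (ZMod p) p (A j * x + B j * y + D j * z) =
        X ^ j * expand (ZMod p) p (A j * x) + X ^ j * expand (ZMod p) p (B j * y) +
        X ^ j * expand (ZMod p) p (D j * z) := by
      intro j
      rw [map_add, map_add]; ring
    simp only [this, Finset.sum_add_distrib]
    rw [sA, sB, sD]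
    have hE' : x ^ p * bar x + y ^ p * bar y + z ^ p * bar z = 0 := hE
    rw [hZ1, hZ2, hZ3]
    linear_combination hE'
  by_cases hcr : ∀ i < p, ∀ j < p, B i * D j = D i * B j ∧ D i * A j = A i * D j ∧
      A i * B j = B i * A j
  · -- rank one
    have hex : ∃ j < p, ¬ (A j = 0 ∧ B j = 0 ∧ D j = 0) := by
      by_contra hcon
      push Not at hcon
      have e1 : Z1 = 0 := by
        rw [← dec_sum hq0 Z1]
        refine Finset.sum_eq_zero fun j hj => ?_
        have : A j = 0 := (hcon j (Finset.mem_range.mp hj)).1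
        show X ^ j * expand (ZMod p) p (A j) = 0
        rw [this]; simp
      have e2 : Z2 = 0 := by
        rw [← dec_sum hq0 Z2]
        refine Finset.sum_eq_zero fun j hj => ?_
        have : B j = 0 := (hcon j (Finset.mem_range.mp hj)).2.1
        show X ^ j * expand (ZMod p) p (B j) = 0
        rw [this]; simp
      have e3 : Z3 = 0 := by
        rw [← dec_sum hq0 Z3]
        refine Finset.sum_eq_zero fun j hj => ?_
        have : D j = 0 := (hcon j (Finset.mem_range.mp hj)).2.2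
        show X ^ j * expand (ZMod p) p (D j) = 0
        rw [this]; simp
      exact hne ⟨bar_inj e1, bar_inj e2, bar_inj e3⟩
    obtain ⟨j, hj, hjne⟩ := hex
    have h12 : Z1 * (B j) ^ p = Z2 * (A j) ^ p := by
      rw [← sA, ← sB]
      refine Finset.sum_congr rfl fun i hi => ?_
      rw [(hcr i (Finset.mem_range.mp hi) j hj).2.2]
    have h13 : Z3 * (A j) ^ p = Z1 * (D j) ^ p := by
      rw [← sA, ← sD]
      refine Finset.sum_congr rfl fun i hi => ?_
      rw [(hcr i (Finset.mem_range.mp hi) j hj).2.1]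
    have h23 : Z2 * (D j) ^ p = Z3 * (B j) ^ p := by
      rw [← sB, ← sD]
      refine Finset.sum_congr rfl fun i hi => ?_
      rw [(hcr i (Finset.mem_range.mp hi) j hj).1]
    -- the triple `A j, B j, D j` is a solution again
    have horth' : bar x * bar (A j) + bar y * bar (B j) + bar z * bar (D j) = 0 := by
      have := congrArg bar (horth j hj)
      rw [bar_add, bar_add, bar_mul, bar_mul, bar_mul, bar_zero] at this
      linear_combination this
    have hE' : Eq0 p (A j) (B j) (D j) := by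
      unfold Eq0
      by_cases h1 : Z1 = 0
      · by_cases h2 : Z2 = 0
        · have h3 : Z3 ≠ 0 := fun h3 => hne ⟨bar_inj h1, bar_inj h2, bar_inj h3⟩
          apply (mul_eq_zero.mp _).resolve_left h3
          linear_combination (bar (A j)) * h13 - (bar (B j)) * h23 + (D j) ^ p * horth'
        · apply (mul_eq_zero.mp _).resolve_left h2
          linear_combination (-bar (A j)) * h12 + (bar (D j)) * h23 + (B j) ^ p * horth'
      · apply (mul_eq_zero.mp _).resolve_left h1
        linear_combination (bar (B j)) * h12 - (bar (D j)) * h13 + (A j) ^ p * horth'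
    obtain ⟨a, b, c, habc, hP⟩ := ih _ hlt1 (A j) (B j) (D j) (dA j) (dB j) (dD j) hjne hE'
    exact ⟨a, b, c, habc, prp_of_bar ⟨h23, h13, h12⟩ rfl hjne hP⟩
  · -- rank two
    push Not at hcr
    obtain ⟨i, hi, j, hj, hij⟩ := hcr
    set u := B i * D j - D i * B j with hu
    set v := D i * A j - A i * D j with hv
    set w := A i * B j - B i * A j with hw
    have hne' : ¬ (u = 0 ∧ v = 0 ∧ w = 0) := by
      rintro ⟨h1, h2, h3⟩
      exact hij (sub_eq_zero.mp h1) (sub_eq_zero.mp h2) (sub_eq_zero.mp h3)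
    have oi := horth i hi
    have oj := horth j hj
    have p1 : y * w = z * v := by rw [hw, hv]; linear_combination (A i) * oj - (A j) * oi
    have p2 : z * u = x * w := by rw [hu, hw]; linear_combination (B i) * oj - (B j) * oi
    have p3 : x * v = y * u := by rw [hu, hv]; linear_combination (D i) * oj - (D j) * oi
    have hE' : Eq0 p u v w := by
      by_cases hx0 : x = 0
      · by_cases hy0 : y = 0
        · have hz0 : z ≠ 0 := fun hz0 => hne ⟨hx0, hy0, hz0⟩
          exact eq0_scale hz0 (m := w) (by rw [p2, mul_comm]) (by rw [← p1, mul_comm])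
            (mul_comm _ _) hE
        · exact eq0_scale hy0 (m := v) (by rw [← p3, mul_comm]) (mul_comm _ _)
            (by rw [p1, mul_comm]) hE
      · exact eq0_scale hx0 (m := u) (mul_comm _ _) (by rw [p3, mul_comm])
          (by rw [← p2, mul_comm]) hE
    have d2 : ∀ f g f' g' : (ZMod p)[X], f.natDegree ≤ n / p → g.natDegree ≤ n / p →
        f'.natDegree ≤ n / p → g'.natDegree ≤ n / p →
        (f * g - f' * g').natDegree ≤ 2 * (n / p) := by
      intro f g f' g' h1 h2 h3 h4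
      refine (natDegree_sub_le _ _).trans (max_le ?_ ?_)
      · exact natDegree_mul_le.trans (by omega)
      · exact natDegree_mul_le.trans (by omega)
    obtain ⟨a, b, c, habc, hP⟩ := ih _ hlt2 u v w (d2 _ _ _ _ (dB i) (dD j) (dD i) (dB j))
      (d2 _ _ _ _ (dD i) (dA j) (dA i) (dD j)) (d2 _ _ _ _ (dA i) (dB j) (dB i) (dA j)) hne' hE'
    exact ⟨a, b, c, habc, Prp.trans ⟨p1, p2, p3⟩ hne' hP⟩


end Pts

open MvPolynomial

/-! ### The equations -/

section Eqs

variable {A : Type} [CommRing A]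

/-- the generic matrix, hermitian with respect to `τ ↦ -τ` -/
noncomputable def HH (τ : A) (i j : Fin 3) : MvPolynomial (Fin 3 × Fin 3) A :=
  if i = j then X (i, i) else if i < j then X (i, j) + C τ * X (j, i)
    else X (j, i) - C τ * X (i, j)

/-- the generic matrix at a point `v` -/
def hh (τ : A) (v : Fin 3 × Fin 3 → A) (i j : Fin 3) : A :=
  if i = j then v (i, i) else if i < j then v (i, j) + τ * v (j, i) else v (j, i) - τ * v (i, j)

/-- two by two minors -/
noncomputable def mnr (τ : A) (i j k l : Fin 3) : MvPolynomial (Fin 3 × Fin 3) A :=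
  HH τ i j * HH τ k l - HH τ i l * HH τ k j

/-- the twisted equations -/
noncomputable def FF (τ : A) (q : ℕ) (l : Fin 3) : MvPolynomial (Fin 3 × Fin 3) A :=
  ∑ i, HH τ i i * (HH τ i l) ^ (q - 1)

/-- all equations of the surface over a ring containing `τ` -/
def EqSet (τ : A) (q : ℕ) : Set (MvPolynomial (Fin 3 × Fin 3) A) :=
  {g | (∃ i j k l, g = mnr τ i j k l) ∨ (∃ l, g = FF τ q l) ∨ (∃ l, g = FF (-τ) q l)}

end Eqs

/-! ### The parametrisation over the algebraic closure -/

section Par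

variable {L : Type} [Field L] {R : Type} [CommRing R] [Algebra L R]

/-- the point with given generic matrix -/
noncomputable def zz (R : Type) [CommRing R] [Algebra L R] (τ : L) (W : Fin 3 → Fin 3 → R) :
    Fin 3 × Fin 3 → R := fun ij =>
  if ij.1 = ij.2 then W ij.1 ij.1 else
    if ij.1 < ij.2 then algebraMap L R 2⁻¹ * (W ij.1 ij.2 + W ij.2 ij.1)
    else algebraMap L R (2 * τ)⁻¹ * (W ij.2 ij.1 - W ij.1 ij.2)

/-- the vector `x` of the parametrisation -/
def xv (q : ℕ) (a : Fin 3 → R) : Fin 3 → R := crossProduct a (fun i => (a i ^ q) ^ q)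

/-- the parametrisation -/
noncomputable def par (τ : L) (q : ℕ) (a : Fin 3 → R) : Fin 3 × Fin 3 → R :=
  zz R τ (fun i j => xv q a i * a j ^ q)

end Par

/-! ### The field -/

section Fld

variable (p : ℕ) [Fact p.Prime]

/-- the rational function field `F_p(T)` -/
abbrev K' : Type := FractionRing (Polynomial (ZMod p))

/-- the variable -/
noncomputable def TT : K' p := algebraMap (Polynomial (ZMod p)) (K' p) Polynomial.X

/-- the automorphism `T ↦ -T` of `F_p[T]` -/
noncomputable def sg0 : Polynomial (ZMod p) ≃+* Polynomial (ZMod p) where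
  toFun f := f.comp (-Polynomial.X)
  invFun f := f.comp (-Polynomial.X)
  left_inv f := by simp [Polynomial.comp_assoc]
  right_inv f := by simp [Polynomial.comp_assoc]
  map_add' f g := Polynomial.add_comp
  map_mul' f g := Polynomial.mul_comp _ _ _

/-- the automorphism `T ↦ -T` of `F_p(T)` -/
noncomputable def sg : K' p ≃+* K' p := IsFractionRing.ringEquivOfRingEquiv (sg0 p)

/-- the fixed field `F_p(T^2)` -/
noncomputable abbrev KK : Subfield (K' p) :=
  RingHom.eqLocusField (sg p : K' p →+* K' p) (RingHom.id (K' p))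

/-- the equations over `K = F_p(T^2)`: the sums `g + gbar` and the products `T (g - gbar)` for
the equations `g` over `F_p(T)` -/
def SS : Set (MvPolynomial (Fin 3 × Fin 3) (KK p)) :=
  {f | ∃ g ∈ EqSet (TT p) p,
    MvPolynomial.map (KK p).subtype f = g + MvPolynomial.map (sg p : K' p →+* K' p) g ∨
    MvPolynomial.map (KK p).subtype f =
      C (TT p) * (g - MvPolynomial.map (sg p : K' p →+* K' p) g)}

end Fld

/-! ### EqSet_map -/

section

theorem u_EqSet_map_EqSet_map_HH {A B : Type} [CommRing A] [CommRing B] (φ : A →+* B) (τ : A) (i j : Fin 3) :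
    MvPolynomial.map φ (HH τ i j) = HH (φ τ) i j := by
  unfold HH
  split_ifs
  · rw [MvPolynomial.map_X]
  · rw [map_add, map_mul, MvPolynomial.map_X, MvPolynomial.map_X, MvPolynomial.map_C]
  · rw [map_sub, map_mul, MvPolynomial.map_X, MvPolynomial.map_X, MvPolynomial.map_C]

theorem u_EqSet_map_EqSet_map_mnr {A B : Type} [CommRing A] [CommRing B] (φ : A →+* B) (τ : A)
    (i j k l : Fin 3) : MvPolynomial.map φ (mnr τ i j k l) = mnr (φ τ) i j k l := by
  unfold mnr
  rw [map_sub, map_mul, map_mul, u_EqSet_map_EqSet_map_HH, u_EqSet_map_EqSet_map_HH, u_EqSet_map_EqSet_map_HH, u_EqSet_map_EqSet_map_HH]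

theorem u_EqSet_map_EqSet_map_FF {A B : Type} [CommRing A] [CommRing B] (φ : A →+* B) (τ : A) (q : ℕ)
    (l : Fin 3) : MvPolynomial.map φ (FF τ q l) = FF (φ τ) q l := by
  unfold FF
  rw [map_sum]
  refine Finset.sum_congr rfl fun i _ => ?_
  rw [map_mul, map_pow, u_EqSet_map_EqSet_map_HH, u_EqSet_map_EqSet_map_HH]

theorem EqSet_map {A B : Type} [CommRing A] [CommRing B] (φ : A →+* B) (τ : A) (q : ℕ) :
    EqSet (φ τ) q = MvPolynomial.map φ '' EqSet τ q := by
  ext g
  constructor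
  · rintro (⟨i, j, k, l, rfl⟩ | ⟨l, rfl⟩ | ⟨l, rfl⟩)
    · exact ⟨_, Or.inl ⟨i, j, k, l, rfl⟩, u_EqSet_map_EqSet_map_mnr φ τ i j k l⟩
    · exact ⟨_, Or.inr (Or.inl ⟨l, rfl⟩), u_EqSet_map_EqSet_map_FF φ τ q l⟩
    · refine ⟨_, Or.inr (Or.inr ⟨l, rfl⟩), ?_⟩
      rw [u_EqSet_map_EqSet_map_FF, map_neg]
  · rintro ⟨g', ⟨i, j, k, l, rfl⟩ | ⟨l, rfl⟩ | ⟨l, rfl⟩, rfl⟩
    · exact Or.inl ⟨i, j, k, l, u_EqSet_map_EqSet_map_mnr φ τ i j k l⟩
    · exact Or.inr (Or.inl ⟨l, u_EqSet_map_EqSet_map_FF φ τ q l⟩)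
    · refine Or.inr (Or.inr ⟨l, ?_⟩)
      rw [u_EqSet_map_EqSet_map_FF, map_neg]

end

/-! ### EqSet_neg -/

section

theorem u_EqSet_neg_HH_neg_21987 {A : Type} [CommRing A] (τ : A) (i j : Fin 3) : HH (-τ) i j = HH τ j i := by
  unfold HH
  rcases lt_trichotomy i j with h | h | h
  · rw [if_neg h.ne, if_pos h, if_neg h.ne', if_neg (not_lt.2 h.le), map_neg]
    ring
  · subst h
    rw [if_pos rfl, if_pos rfl]
  · rw [if_neg h.ne', if_neg (not_lt.2 h.le), if_neg h.ne, if_pos h, map_neg]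
    ring

theorem u_EqSet_neg_mnr_neg_21987 {A : Type} [CommRing A] (τ : A) (i j k l : Fin 3) :
    mnr (-τ) i j k l = mnr τ j i l k := by
  unfold mnr
  rw [u_EqSet_neg_HH_neg_21987, u_EqSet_neg_HH_neg_21987, u_EqSet_neg_HH_neg_21987, u_EqSet_neg_HH_neg_21987]
  ring

theorem u_EqSet_neg_sub_21987 {A : Type} [CommRing A] (τ : A) (q : ℕ) : EqSet (-τ) q ⊆ EqSet τ q := by
  rintro g (⟨i, j, k, l, rfl⟩ | ⟨l, rfl⟩ | ⟨l, rfl⟩)
  · exact Or.inl ⟨j, i, l, k, u_EqSet_neg_mnr_neg_21987 τ i j k l⟩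
  · exact Or.inr (Or.inr ⟨l, rfl⟩)
  · exact Or.inr (Or.inl ⟨l, by rw [neg_neg]⟩)


theorem EqSet_neg {A : Type} [CommRing A] (τ : A) (q : ℕ) : EqSet (-τ) q = EqSet τ q := by
  refine Set.Subset.antisymm (u_EqSet_neg_sub_21987 τ q) ?_
  have h := u_EqSet_neg_sub_21987 (-τ) q
  rw [neg_neg] at h
  exact h

end

/-! ### exists_lift -/

section

theorem exists_lift (p : ℕ) [Fact p.Prime] {ι : Type} (G : MvPolynomial ι (K' p))
    (h : MvPolynomial.map (sg p : K' p →+* K' p) G = G) :
    ∃ f : MvPolynomial ι (KK p), MvPolynomial.map (KK p).subtype f = G := by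
  have hc : ∀ d, G.coeff d ∈ KK p := by
    intro d
    have h1 := congrArg (coeff d) h
    rw [coeff_map] at h1
    exact h1
  refine ⟨∑ d ∈ G.support, monomial d (⟨G.coeff d, hc d⟩ : KK p), ?_⟩
  rw [map_sum]
  simp only [map_monomial]
  exact G.support_sum_monomial_coeff

end

/-! ### sg_facts -/

section

theorem sg_facts (p : ℕ) [Fact p.Prime] :
    (∀ f : Polynomial (ZMod p), sg p (algebraMap (Polynomial (ZMod p)) (K' p) f) =
      algebraMap (Polynomial (ZMod p)) (K' p) (f.comp (-Polynomial.X))) ∧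
    (∀ x, sg p (sg p x) = x) ∧ sg p (TT p) = -TT p ∧ TT p ≠ 0 ∧
    (p ≠ 2 → (2 : K' p) ≠ 0) := by
  have h1 : ∀ f : Polynomial (ZMod p), sg p (algebraMap (Polynomial (ZMod p)) (K' p) f) =
      algebraMap (Polynomial (ZMod p)) (K' p) (f.comp (-Polynomial.X)) := by
    intro f
    have := IsFractionRing.ringEquivOfRingEquiv_algebraMap (K := K' p) (L := K' p) (sg0 p) f
    exact this
  have hinj : Function.Injective (algebraMap (Polynomial (ZMod p)) (K' p)) :=
    IsFractionRing.injective _ _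
  refine ⟨h1, ?_, ?_, ?_, ?_⟩
  · intro x
    obtain ⟨f, g, hg, rfl⟩ := IsFractionRing.div_surjective (A := Polynomial (ZMod p)) x
    simp only [map_div₀, h1, Polynomial.comp_assoc]
    simp
  · unfold TT
    rw [h1]
    simp
  · unfold TT
    intro h
    rw [← map_zero (algebraMap (Polynomial (ZMod p)) (K' p))] at h
    exact Polynomial.X_ne_zero (hinj h)
  · intro hp h
    have h2 : (algebraMap (Polynomial (ZMod p)) (K' p)) 2 = 0 := by
      rw [map_ofNat]; exact h
    rw [← map_zero (algebraMap (Polynomial (ZMod p)) (K' p))] at h2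
    have h3 : (2 : Polynomial (ZMod p)) = 0 := hinj h2
    have h4 : ((2 : ℕ) : ZMod p) = 0 := by
      have := congrArg (Polynomial.eval 0) h3
      simpa using this
    rw [ZMod.natCast_eq_zero_iff] at h4
    exact hp ((Nat.prime_dvd_prime_iff_eq (Fact.out) Nat.prime_two).1 h4)

end

/-! ### zero_of_eqs -/

section

theorem zero_of_eqs (p : ℕ) [Fact p.Prime] {R : Type} [CommRing R] [Algebra (KK p) R]
    (j : K' p →+* R) (hj : ∀ c : KK p, j (c : K' p) = algebraMap (KK p) R c)
    (v : Fin 3 × Fin 3 → R) (h : ∀ g ∈ EqSet (j (TT p)) p, eval v g = 0) :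
    ∀ f ∈ SS p, aeval v f = 0 := by
  intro f hf
  obtain ⟨g, hg, hfg⟩ := hf
  have hcomp : j.comp (KK p).subtype = algebraMap (KK p) R := RingHom.ext hj
  have h1 : aeval v f = eval₂ j v (MvPolynomial.map (KK p).subtype f) := by
    rw [eval₂_map, hcomp, aeval_def]
  have h2 : ∀ g' ∈ EqSet (TT p) p, eval₂ j v g' = 0 := by
    intro g' hg'
    rw [eval₂_eq_eval_map]
    apply h
    rw [EqSet_map]
    exact ⟨g', hg', rfl⟩
  have h3 : MvPolynomial.map (sg p : K' p →+* K' p) g ∈ EqSet (TT p) p := by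
    have h4 : EqSet ((sg p : K' p →+* K' p) (TT p)) p =
        MvPolynomial.map (sg p : K' p →+* K' p) '' EqSet (TT p) p := EqSet_map _ _ _
    have h5 : (sg p : K' p →+* K' p) (TT p) = - TT p := (sg_facts p).2.2.1
    rw [h5, EqSet_neg] at h4
    rw [h4]
    exact ⟨g, hg, rfl⟩
  rw [h1]
  rcases hfg with h4 | h4
  · rw [h4, eval₂_add, h2 _ hg, h2 _ h3, add_zero]
  · rw [h4, eval₂_mul, eval₂_sub, h2 _ hg, h2 _ h3, sub_zero, mul_zero]

end

/-! ### eqs_of_zero -/

section

theorem eqs_of_zero (p : ℕ) [Fact p.Prime] (hp : p ≠ 2) {L : Type} [Field L] [Algebra (KK p) L]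
    (j : K' p →+* L) (hj : ∀ c : KK p, j (c : K' p) = algebraMap (KK p) L c)
    (v : Fin 3 × Fin 3 → L) (h : ∀ f ∈ SS p, aeval v f = 0) :
    ∀ g ∈ EqSet (j (TT p)) p, eval v g = 0 := by
  intro g hg
  rw [EqSet_map] at hg
  obtain ⟨g0, hg0, rfl⟩ := hg
  obtain ⟨-, hss, hsT, hT0, h2⟩ := sg_facts p
  have hmm : MvPolynomial.map (sg p : K' p →+* K' p)
      (MvPolynomial.map (sg p : K' p →+* K' p) g0) = g0 := by
    rw [MvPolynomial.map_map]
    have : (sg p : K' p →+* K' p).comp (sg p : K' p →+* K' p) = RingHom.id _ := by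
      refine RingHom.ext fun x => ?_
      exact hss x
    rw [this, MvPolynomial.map_id]
  have hev : ∀ f : MvPolynomial (Fin 3 × Fin 3) (KK p),
      aeval v f = eval₂ j v (MvPolynomial.map (KK p).subtype f) := by
    intro f
    rw [MvPolynomial.eval₂_map, MvPolynomial.aeval_def]
    congr 1
    refine RingHom.ext fun c => ?_
    exact (hj c).symm
  obtain ⟨f1, hf1⟩ := exists_lift p (g0 + MvPolynomial.map (sg p : K' p →+* K' p) g0) (by
    rw [map_add, hmm, add_comm])
  obtain ⟨f2, hf2⟩ := exists_lift p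
    (C (TT p) * (g0 - MvPolynomial.map (sg p : K' p →+* K' p) g0)) (by
    rw [map_mul, map_sub, hmm, MvPolynomial.map_C]
    have : (sg p : K' p →+* K' p) (TT p) = - TT p := hsT
    rw [this, C_neg]
    ring)
  have e1 := h f1 ⟨g0, hg0, Or.inl hf1⟩
  have e2 := h f2 ⟨g0, hg0, Or.inr hf2⟩
  rw [hev, hf1, eval₂_add] at e1
  rw [hev, hf2, eval₂_mul, eval₂_C, eval₂_sub] at e2
  have hjT : j (TT p) ≠ 0 := (map_ne_zero j).2 hT0
  have e3 := (mul_eq_zero.1 e2).resolve_left hjT
  have h2L : (2 : L) ≠ 0 := by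
    have := (map_ne_zero j).2 (h2 hp)
    rwa [map_ofNat] at this
  have e4 : (2 : L) * eval₂ j v g0 = 0 := by linear_combination e1 + e3
  rw [MvPolynomial.eval_map]
  exact (mul_eq_zero.1 e4).resolve_left h2L

end

/-! ### ideal_eq -/

section

theorem ideal_eq (p : ℕ) [Fact p.Prime] (hp : p ≠ 2) {L : Type} [Field L] [Algebra (KK p) L]
    (j : K' p →+* L) (hj : ∀ c : KK p, j (c : K' p) = algebraMap (KK p) L c) :
    idealL (KK p) L (SS p) = Ideal.span (EqSet (j (TT p)) p) := by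
  obtain ⟨-, hsg2, hsgT, hT0, h2⟩ := sg_facts p
  have h2 := h2 hp
  have hcomp : (algebraMap (KK p) L) = j.comp (KK p).subtype := by
    ext c
    exact (hj c).symm
  have hmap : ∀ f : MvPolynomial (Fin 3 × Fin 3) (KK p), MvPolynomial.map (algebraMap (KK p) L) f =
      MvPolynomial.map j (MvPolynomial.map (KK p).subtype f) := by
    intro f
    rw [MvPolynomial.map_map, hcomp]
  have hsgsg : ∀ g : MvPolynomial (Fin 3 × Fin 3) (K' p),
      MvPolynomial.map (sg p : K' p →+* K' p) (MvPolynomial.map (sg p : K' p →+* K' p) g) = g := by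
    intro g
    rw [MvPolynomial.map_map]
    have : (sg p : K' p →+* K' p).comp (sg p : K' p →+* K' p) = RingHom.id _ := by
      ext x
      exact hsg2 x
    rw [this, MvPolynomial.map_id]
  have hE1 : ∀ g ∈ EqSet (TT p) p, MvPolynomial.map j g ∈ EqSet (j (TT p)) p := by
    intro g hg
    rw [EqSet_map]
    exact ⟨g, hg, rfl⟩
  have hE2 : ∀ g ∈ EqSet (TT p) p, MvPolynomial.map (sg p : K' p →+* K' p) g ∈ EqSet (TT p) p := by
    intro g hg
    have h1 : MvPolynomial.map (sg p : K' p →+* K' p) g ∈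
        EqSet ((sg p : K' p →+* K' p) (TT p)) p := by
      rw [EqSet_map]
      exact ⟨g, hg, rfl⟩
    have h3 : (sg p : K' p →+* K' p) (TT p) = -TT p := hsgT
    rw [h3, EqSet_neg] at h1
    exact h1
  apply le_antisymm
  · refine Ideal.span_le.mpr ?_
    rintro _ ⟨f, ⟨g, hg, hf⟩, rfl⟩
    rw [hmap]
    have m1 : MvPolynomial.map j g ∈ Ideal.span (EqSet (j (TT p)) p) :=
      Ideal.subset_span (hE1 g hg)
    have m2 : MvPolynomial.map j (MvPolynomial.map (sg p : K' p →+* K' p) g) ∈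
        Ideal.span (EqSet (j (TT p)) p) := Ideal.subset_span (hE1 _ (hE2 g hg))
    rcases hf with hf | hf
    · rw [hf, map_add]
      exact Ideal.add_mem _ m1 m2
    · rw [hf, map_mul, map_sub]
      exact Ideal.mul_mem_left _ _ (Ideal.sub_mem _ m1 m2)
  · refine Ideal.span_le.mpr ?_
    rw [EqSet_map]
    rintro _ ⟨g, hg, rfl⟩
    obtain ⟨f1, hf1⟩ := exists_lift p (g + MvPolynomial.map (sg p : K' p →+* K' p) g) (by
      rw [map_add, hsgsg, add_comm])
    obtain ⟨f2, hf2⟩ := exists_lift p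
      (C (TT p) * (g - MvPolynomial.map (sg p : K' p →+* K' p) g)) (by
      rw [map_mul, map_sub, hsgsg, MvPolynomial.map_C]
      have h3 : (sg p : K' p →+* K' p) (TT p) = -TT p := hsgT
      rw [h3, C_neg]
      ring)
    have m1 : MvPolynomial.map (algebraMap (KK p) L) f1 ∈ idealL (KK p) L (SS p) :=
      Ideal.subset_span ⟨f1, ⟨g, hg, Or.inl hf1⟩, rfl⟩
    have m2 : MvPolynomial.map (algebraMap (KK p) L) f2 ∈ idealL (KK p) L (SS p) :=
      Ideal.subset_span ⟨f2, ⟨g, hg, Or.inr hf2⟩, rfl⟩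
    rw [hmap, hf1, map_add] at m1
    rw [hmap, hf2, map_mul, map_sub, MvPolynomial.map_C] at m2
    have ht : j (TT p) ≠ 0 := by
      intro h
      exact hT0 (j.injective (h.trans (map_zero j).symm))
    have h2L : (2 : L) ≠ 0 := by
      intro h
      apply h2
      apply j.injective
      rw [map_zero, map_ofNat]
      exact h
    have e : MvPolynomial.map j g =
        C (2⁻¹ : L) * (MvPolynomial.map j g +
          MvPolynomial.map j (MvPolynomial.map (sg p : K' p →+* K' p) g)) +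
        C ((2 * j (TT p))⁻¹ : L) * (C (j (TT p)) * (MvPolynomial.map j g -
          MvPolynomial.map j (MvPolynomial.map (sg p : K' p →+* K' p) g))) := by
      rw [← mul_assoc (C ((2 * j (TT p))⁻¹ : L)), ← C_mul]
      have e1 : (2 * j (TT p))⁻¹ * j (TT p) = (2⁻¹ : L) := by field_simp
      rw [e1]
      have e2 : (C (2⁻¹ : L) : MvPolynomial (Fin 3 × Fin 3) L) * 2 = 1 := by
        have : (2 : MvPolynomial (Fin 3 × Fin 3) L) = C (2 : L) := (map_ofNat C 2).symm
        rw [this, ← C_mul, inv_mul_cancel₀ h2L, C_1]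
      linear_combination (-(MvPolynomial.map j g)) * e2
    show MvPolynomial.map j g ∈ idealL (KK p) L (SS p)
    rw [e]
    exact Ideal.add_mem _ (Ideal.mul_mem_left _ _ m1) (Ideal.mul_mem_left _ _ m2)

end

/-! ### SS_hom -/

section

theorem u_SS_hom_HH_hom {A : Type} [CommRing A] (τ : A) (i j : Fin 3) : (HH τ i j).IsHomogeneous 1 := by
  unfold HH
  split_ifs
  · exact isHomogeneous_X _ _
  · exact (isHomogeneous_X _ _).add ((isHomogeneous_X _ _).C_mul _)
  · exact (isHomogeneous_X _ _).sub ((isHomogeneous_X _ _).C_mul _)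

theorem u_SS_hom_FF_hom {A : Type} [CommRing A] (τ : A) (q : ℕ) (l : Fin 3) :
    (FF τ q l).IsHomogeneous (1 + 1 * (q - 1)) := by
  unfold FF
  exact IsHomogeneous.sum _ _ _ fun i _ => (u_SS_hom_HH_hom τ i i).mul ((u_SS_hom_HH_hom τ i l).pow _)

theorem u_SS_hom_EqSet_hom {A : Type} [CommRing A] (τ : A) (q : ℕ) :
    ∀ g ∈ EqSet τ q, ∃ n, g.IsHomogeneous n := by
  rintro g (⟨i, j, k, l, rfl⟩ | ⟨l, rfl⟩ | ⟨l, rfl⟩)
  · exact ⟨1 + 1, ((u_SS_hom_HH_hom τ i j).mul (u_SS_hom_HH_hom τ k l)).sub ((u_SS_hom_HH_hom τ i l).mul (u_SS_hom_HH_hom τ k j))⟩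
  · exact ⟨_, u_SS_hom_FF_hom τ q l⟩
  · exact ⟨_, u_SS_hom_FF_hom (-τ) q l⟩

theorem SS_hom (p : ℕ) [Fact p.Prime] : ∀ f ∈ SS p, ∃ n, f.IsHomogeneous n := by
  rintro f ⟨g, hg, h | h⟩
  · obtain ⟨n, hn⟩ := u_SS_hom_EqSet_hom _ _ g hg
    refine ⟨n, IsHomogeneous.of_map (f := (KK p).subtype) Subtype.val_injective ?_⟩
    rw [h]
    exact hn.add (hn.map _)
  · obtain ⟨n, hn⟩ := u_SS_hom_EqSet_hom _ _ g hg
    refine ⟨n, IsHomogeneous.of_map (f := (KK p).subtype) Subtype.val_injective ?_⟩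
    rw [h]
    exact (hn.sub (hn.map _)).C_mul _

end

/-! ### eval_iff -/

section

theorem u_eval_iff_eval_iff_HH {R : Type} [CommRing R] (τ : R) (v : Fin 3 × Fin 3 → R) (i j : Fin 3) :
    eval v (HH τ i j) = hh τ v i j := by
  unfold HH hh
  split_ifs <;> simp

theorem u_eval_iff_eval_iff_neg {R : Type} [CommRing R] (τ : R) (v : Fin 3 × Fin 3 → R) (i j : Fin 3) :
    hh (-τ) v i j = hh τ v j i := by
  unfold hh
  fin_cases i <;> fin_cases j <;> simp [sub_eq_add_neg]

theorem eval_iff {R : Type} [CommRing R] (τ : R) (q : ℕ) (v : Fin 3 × Fin 3 → R) :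
    (∀ g ∈ EqSet τ q, eval v g = 0) ↔
      (∀ i j k l, hh τ v i j * hh τ v k l = hh τ v i l * hh τ v k j) ∧
      (∀ l, ∑ i, hh τ v i i * (hh τ v i l) ^ (q - 1) = 0) ∧
      (∀ l, ∑ i, hh τ v i i * (hh τ v l i) ^ (q - 1) = 0) := by
  have hm : ∀ i j k l : Fin 3, eval v (mnr τ i j k l) =
      hh τ v i j * hh τ v k l - hh τ v i l * hh τ v k j := by
    intro i j k l
    unfold mnr
    simp only [map_sub, map_mul, u_eval_iff_eval_iff_HH]
  have hF : ∀ l : Fin 3, eval v (FF τ q l) = ∑ i, hh τ v i i * (hh τ v i l) ^ (q - 1) := by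
    intro l
    unfold FF
    simp only [map_sum, map_mul, map_pow, u_eval_iff_eval_iff_HH]
  have hF' : ∀ l : Fin 3, eval v (FF (-τ) q l) = ∑ i, hh τ v i i * (hh τ v l i) ^ (q - 1) := by
    intro l
    unfold FF
    simp only [map_sum, map_mul, map_pow, u_eval_iff_eval_iff_HH, u_eval_iff_eval_iff_neg]
  constructor
  · intro h
    refine ⟨?_, ?_, ?_⟩
    · intro i j k l
      have := h (mnr τ i j k l) (Or.inl ⟨i, j, k, l, rfl⟩)
      rw [hm] at this
      exact sub_eq_zero.mp this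
    · intro l
      rw [← hF]
      exact h _ (Or.inr (Or.inl ⟨l, rfl⟩))
    · intro l
      rw [← hF']
      exact h _ (Or.inr (Or.inr ⟨l, rfl⟩))
  · rintro ⟨h1, h2, h3⟩ g (⟨i, j, k, l, rfl⟩ | ⟨l, rfl⟩ | ⟨l, rfl⟩)
    · rw [hm, h1 i j k l, sub_self]
    · rw [hF]; exact h2 l
    · rw [hF']; exact h3 l

end

/-! ### hh_zz -/

section

theorem hh_zz {L : Type} [Field L] {R : Type} [CommRing R] [Algebra L R] (τ : L) (hτ : τ ≠ 0)
    (h2 : (2 : L) ≠ 0) (W : Fin 3 → Fin 3 → R) (i j : Fin 3) :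
    hh (algebraMap L R τ) (zz R τ W) i j = W i j := by
  have ha : 2 * algebraMap L R 2⁻¹ = 1 := by
    have : (2 : R) = algebraMap L R 2 := (map_ofNat (algebraMap L R) 2).symm
    rw [this, ← map_mul, mul_inv_cancel₀ h2, map_one]
  have hb : algebraMap L R τ * algebraMap L R (2 * τ)⁻¹ = algebraMap L R 2⁻¹ := by
    rw [← map_mul]
    congr 1
    field_simp
  rcases lt_trichotomy i j with h | h | h
  · have h1 : i ≠ j := h.ne
    have h3 : ¬ j < i := h.not_gt
    simp only [hh, zz, h1, h1.symm, h, h3, if_true, if_false]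
    linear_combination (W i j - W j i) * hb + (W i j) * ha
  · subst h
    simp [hh, zz]
  · have h1 : i ≠ j := h.ne'
    have h3 : ¬ i < j := h.not_gt
    simp only [hh, zz, h1, h1.symm, h, h3, if_true, if_false]
    linear_combination (-(W j i - W i j)) * hb + (W i j) * ha

end

/-! ### zz_hh -/

section

theorem zz_hh {L : Type} [Field L] {R : Type} [CommRing R] [Algebra L R] (τ : L) (hτ : τ ≠ 0)
    (h2 : (2 : L) ≠ 0) (v : Fin 3 × Fin 3 → R) :
    zz R τ (fun i j => hh (algebraMap L R τ) v i j) = v := by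
  have e1 : algebraMap L R 2⁻¹ * 2 = 1 := by
    rw [← map_ofNat (algebraMap L R) 2, ← map_mul, inv_mul_cancel₀ h2, map_one]
  have e2 : algebraMap L R (2 * τ)⁻¹ * (2 * algebraMap L R τ) = 1 := by
    rw [← map_ofNat (algebraMap L R) 2, ← map_mul, ← map_mul,
      inv_mul_cancel₀ (mul_ne_zero h2 hτ), map_one]
  funext ⟨i, j⟩
  rcases lt_trichotomy i j with h | h | h
  · simp only [zz, hh]
    rw [if_neg h.ne, if_pos h, if_neg h.ne, if_pos h, if_neg h.ne', if_neg h.not_gt]
    linear_combination v (i, j) * e1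
  · subst h
    simp [zz, hh]
  · simp only [zz, hh]
    rw [if_neg h.ne', if_neg h.not_gt, if_neg h.ne, if_pos h, if_neg h.ne', if_neg h.not_gt]
    linear_combination v (i, j) * e2

end

/-! ### par_sol -/

section

theorem par_sol {L : Type} [Field L] {R : Type} [CommRing R] [Algebra L R] (p : ℕ)
    [Fact p.Prime] [CharP R p] (τ : L) (hτ : τ ≠ 0) (h2 : (2 : L) ≠ 0) (a : Fin 3 → R) :
    ∀ g ∈ EqSet (algebraMap L R τ) p, eval (par τ p a) g = 0 := by
  have hp0 : p ≠ 0 := (Fact.out : p.Prime).ne_zero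
  have hp1 : p = (p - 1) + 1 := by omega
  have hW : ∀ i j, hh (algebraMap L R τ) (par τ p a) i j = xv p a i * a j ^ p := by
    intro i j
    exact hh_zz τ hτ h2 (fun i j => xv p a i * a j ^ p) i j
  have hxa : ∑ i, xv p a i * a i = 0 := by
    have h := dot_self_cross a (fun i => (a i ^ p) ^ p)
    rw [dotProduct] at h
    rw [← h]
    exact Finset.sum_congr rfl fun i _ => mul_comm _ _
  have hxb : ∑ i, xv p a i * (a i ^ p) ^ p = 0 := by
    have h := dot_cross_self a (fun i => (a i ^ p) ^ p)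
    rw [dotProduct] at h
    rw [← h]
    exact Finset.sum_congr rfl fun i _ => mul_comm _ _
  have hpow : ∀ z : R, z * z ^ (p - 1) = z ^ p := by
    intro z
    conv_rhs => rw [hp1, pow_succ']
  rw [eval_iff]
  refine ⟨?_, ?_, ?_⟩
  · intro i j k l
    simp only [hW]
    ring
  · intro l
    simp only [hW]
    have h1 : ∀ i, xv p a i * a i ^ p * (xv p a i * a l ^ p) ^ (p - 1) =
        (a l ^ p) ^ (p - 1) * (xv p a i * a i) ^ p := by
      intro i
      rw [mul_pow, mul_pow, ← hpow (xv p a i)]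
      ring
    simp only [h1]
    rw [← Finset.mul_sum, ← sum_pow_char, hxa, zero_pow hp0, mul_zero]
  · intro l
    simp only [hW]
    have h1 : ∀ i, xv p a i * a i ^ p * (xv p a l * a i ^ p) ^ (p - 1) =
        (xv p a l) ^ (p - 1) * (xv p a i * (a i ^ p) ^ p) := by
      intro i
      rw [mul_pow, ← hpow (a i ^ p)]
      ring
    simp only [h1]
    rw [← Finset.mul_sum, hxb, mul_zero]

end

/-! ### struct -/

section

theorem struct {L : Type} [Field L] (p : ℕ) [Fact p.Prime] (τ : L) (hτ : τ ≠ 0)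
    (h2 : (2 : L) ≠ 0) (v : Fin 3 × Fin 3 → L) (hv : v ≠ 0)
    (h : ∀ g ∈ EqSet τ p, eval v g = 0) :
    ∃ x y : Fin 3 → L, x ≠ 0 ∧ y ≠ 0 ∧ (∀ i j, hh τ v i j = x i * y j) ∧
      ∑ i, x i ^ p * y i = 0 ∧ ∑ i, y i ^ p * x i = 0 := by
  obtain ⟨hr, F1, F2⟩ := (eval_iff τ p v).mp h
  have hp : 1 ≤ p := (Fact.out : p.Prime).one_lt.le
  have hne : ∃ k l, hh τ v k l ≠ 0 := by
    by_contra hcon
    push Not at hcon
    apply hv
    have h0 := zz_hh (R := L) τ hτ h2 v
    rw [← h0]
    funext ij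
    simp [zz, hcon]
  obtain ⟨k, l, hkl⟩ := hne
  have hxy : ∀ i j, hh τ v i j = hh τ v i l * (hh τ v k j / hh τ v k l) := by
    intro i j
    rw [mul_div_assoc', eq_div_iff hkl]
    exact hr i j k l
  refine ⟨fun i => hh τ v i l, fun j => hh τ v k j / hh τ v k l, ?_, ?_, hxy, ?_, ?_⟩
  · intro h0
    exact hkl (congrFun h0 k)
  · intro h0
    have := congrFun h0 l
    simp [div_self hkl] at this
  · rw [← F1 l]
    refine Finset.sum_congr rfl fun i _ => ?_
    rw [hxy i i]
    dsimp only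
    obtain ⟨q, rfl⟩ : ∃ q, p = q + 1 := ⟨p - 1, by omega⟩
    rw [Nat.add_sub_cancel, pow_succ]
    ring
  · have hF := F2 k
    have hk : ∀ i, hh τ v k i = hh τ v k l * (hh τ v k i / hh τ v k l) := hxy k
    have e : ∑ i, hh τ v i i * (hh τ v k i) ^ (p - 1)
        = (hh τ v k l) ^ (p - 1) * ∑ i, (hh τ v k i / hh τ v k l) ^ p * hh τ v i l := by
      rw [Finset.mul_sum]
      refine Finset.sum_congr rfl fun i _ => ?_
      obtain ⟨q, rfl⟩ : ∃ q, p = q + 1 := ⟨p - 1, by omega⟩
      rw [Nat.add_sub_cancel]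
      have h1 := hxy i i
      have h3 := hk i
      set t := hh τ v k i / hh τ v k l with ht
      rw [h1, h3, mul_pow, pow_succ]
      ring
    rw [e] at hF
    rcases mul_eq_zero.mp hF with h4 | h4
    · exact absurd h4 (pow_ne_zero _ hkl)
    · exact h4

end

/-! ### exists_root -/

section

theorem exists_root {L : Type} [Field L] [IsAlgClosed L] (p : ℕ) [Fact p.Prime] [CharP L p]
    (x y : Fin 3 → L) (hy : y ≠ 0) (h : ∑ i, x i ^ p * y i = 0) :
    ∃ a : Fin 3 → L, a ≠ 0 ∧ (∀ i, a i ^ p = y i) ∧ ∑ i, x i * a i = 0 := by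
  have hp : 0 < p := (Fact.out : p.Prime).pos
  have : ∀ i, ∃ z : L, z ^ p = y i := fun i => IsAlgClosed.exists_pow_nat_eq (y i) hp
  choose a ha using this
  refine ⟨a, ?_, ha, ?_⟩
  · intro h0
    apply hy
    funext i
    rw [← ha i, h0]
    simp [hp.ne']
  · have e : (∑ i, x i * a i) ^ p = 0 := by
      rw [sum_pow_char, ← h]
      refine Finset.sum_congr rfl fun i _ => ?_
      rw [mul_pow, ha]
    exact pow_eq_zero_iff hp.ne' |>.1 e

end

/-! ### par_of -/

section

theorem u_par_of_par_of_xv {L : Type} [Field L] (p : ℕ) (a : Fin 3 → L) :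
    xv p a = ![a 1 * (a 2 ^ p) ^ p - a 2 * (a 1 ^ p) ^ p,
      a 2 * (a 0 ^ p) ^ p - a 0 * (a 2 ^ p) ^ p,
      a 0 * (a 1 ^ p) ^ p - a 1 * (a 0 ^ p) ^ p] := by
  unfold xv
  rw [cross_apply]

theorem u_par_of_par_of_prop {L : Type} [Field L] (p : ℕ) (x a : Fin 3 → L)
    (h1 : ∑ i, x i * a i = 0) (h2 : ∑ i, x i * (a i ^ p) ^ p = 0) (i j : Fin 3) :
    x i * xv p a j = x j * xv p a i := by
  rw [Fin.sum_univ_three] at h1 h2
  rw [u_par_of_par_of_xv]
  have e01 : x 0 * (a 2 * (a 0 ^ p) ^ p - a 0 * (a 2 ^ p) ^ p) =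
      x 1 * (a 1 * (a 2 ^ p) ^ p - a 2 * (a 1 ^ p) ^ p) := by
    linear_combination a 2 * h2 - (a 2 ^ p) ^ p * h1
  have e02 : x 0 * (a 0 * (a 1 ^ p) ^ p - a 1 * (a 0 ^ p) ^ p) =
      x 2 * (a 1 * (a 2 ^ p) ^ p - a 2 * (a 1 ^ p) ^ p) := by
    linear_combination -a 1 * h2 + (a 1 ^ p) ^ p * h1
  have e12 : x 1 * (a 0 * (a 1 ^ p) ^ p - a 1 * (a 0 ^ p) ^ p) =
      x 2 * (a 2 * (a 0 ^ p) ^ p - a 0 * (a 2 ^ p) ^ p) := by
    linear_combination a 0 * h2 - (a 0 ^ p) ^ p * h1
  fin_cases i <;> fin_cases j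
  · rfl
  · exact e01
  · exact e02
  · exact e01.symm
  · rfl
  · exact e12
  · exact e02.symm
  · exact e12.symm
  · rfl

theorem u_par_of_par_of_scale {L : Type} [Field L] (p : ℕ) (a : Fin 3 → L) (m : L) (i : Fin 3) :
    xv p (fun k => m * a k) i = m ^ (1 + p * p) * xv p a i := by
  rw [u_par_of_par_of_xv, u_par_of_par_of_xv]
  have h : ∀ k, ((m * a k) ^ p) ^ p = m ^ (p * p) * (a k ^ p) ^ p := by
    intro k
    rw [mul_pow, mul_pow, ← pow_mul m]
  simp only [h]
  fin_cases i
  · show m * a 1 * (m ^ (p * p) * (a 2 ^ p) ^ p) - m * a 2 * (m ^ (p * p) * (a 1 ^ p) ^ p) =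
      m ^ (1 + p * p) * (a 1 * (a 2 ^ p) ^ p - a 2 * (a 1 ^ p) ^ p)
    rw [pow_add, pow_one]
    ring
  · show m * a 2 * (m ^ (p * p) * (a 0 ^ p) ^ p) - m * a 0 * (m ^ (p * p) * (a 2 ^ p) ^ p) =
      m ^ (1 + p * p) * (a 2 * (a 0 ^ p) ^ p - a 0 * (a 2 ^ p) ^ p)
    rw [pow_add, pow_one]
    ring
  · show m * a 0 * (m ^ (p * p) * (a 1 ^ p) ^ p) - m * a 1 * (m ^ (p * p) * (a 0 ^ p) ^ p) =
      m ^ (1 + p * p) * (a 0 * (a 1 ^ p) ^ p - a 1 * (a 0 ^ p) ^ p)
    rw [pow_add, pow_one]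
    ring

theorem par_of {L : Type} [Field L] [IsAlgClosed L] (p : ℕ) [Fact p.Prime] (τ : L)
    (x a : Fin 3 → L) (hx : x ≠ 0) (h1 : ∑ i, x i * a i = 0)
    (h2 : ∑ i, x i * (a i ^ p) ^ p = 0) (h3 : xv p a ≠ 0) :
    ∃ b : Fin 3 → L, par τ p b = zz L τ (fun i j => x i * a j ^ p) := by
  obtain ⟨j, hj⟩ : ∃ j, xv p a j ≠ 0 := by
    by_contra hcon
    push Not at hcon
    exact h3 (funext hcon)
  have hxi : ∀ i, x i = (x j / xv p a j) * xv p a i := by
    intro i
    have h := u_par_of_par_of_prop p x a h1 h2 i j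
    rw [div_mul_eq_mul_div, eq_div_iff hj]
    exact h
  obtain ⟨m, hm⟩ := IsAlgClosed.exists_pow_nat_eq (x j / xv p a j)
    (show 0 < 1 + p * p + p by omega)
  refine ⟨fun k => m * a k, ?_⟩
  unfold par
  congr 1
  funext i k
  rw [u_par_of_par_of_scale, mul_pow, hxi i, ← hm, pow_add m (1 + p * p) p]
  ring

end

/-! ### dense -/

section

theorem u_dense_dn_xv_smul {L : Type} [Field L] (p : ℕ) (m : L) (a : Fin 3 → L) (i : Fin 3) :
    xv p (fun k => m * a k) i = m ^ (1 + p * p) * xv p a i := by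
  unfold xv
  fin_cases i <;> simp only [cross_apply] <;> simp <;> ring

theorem u_dense_dn_zz_map {L : Type} [Field L] {R R' : Type} [CommRing R] [Algebra L R] [CommRing R']
    [Algebra L R'] (φ : R →ₐ[L] R') (τ : L) (W : Fin 3 → Fin 3 → R) (i : Fin 3 × Fin 3) :
    φ (zz R τ W i) = zz R' τ (fun i j => φ (W i j)) i := by
  unfold zz
  split_ifs <;> simp

theorem u_dense_dn_par_smul {L : Type} [Field L] (p : ℕ) (τ : L) (a d : Fin 3 → L) (m k : L)
    (hm : m ^ (1 + p * p + p) * k = 1) (hd : ∀ i, xv p a i = k * d i) :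
    par τ p (fun k => m * a k) = zz L τ (fun i j => d i * a j ^ p) := by
  unfold par
  congr 1
  funext i j
  rw [u_dense_dn_xv_smul, hd]
  calc m ^ (1 + p * p) * (k * d i) * (m * a j) ^ p
      = (m ^ (1 + p * p + p) * k) * (d i * a j ^ p) := by ring
    _ = d i * a j ^ p := by rw [hm, one_mul]

theorem u_dense_dn_cross {L : Type} [Field L] (x a : Fin 3 → L) (ha : a ≠ 0)
    (h : ∑ i, x i * a i = 0) : ∃ b : Fin 3 → L, crossProduct b a = x := by
  rw [Fin.sum_univ_three] at h
  by_cases h0 : a 0 = 0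
  · by_cases h1 : a 1 = 0
    · have h2 : a 2 ≠ 0 := by
        intro h2
        apply ha
        funext i
        fin_cases i
        · exact h0
        · exact h1
        · exact h2
      refine ⟨![-x 1 / a 2, x 0 / a 2, 0], ?_⟩
      funext i
      fin_cases i
      · simp [cross_apply]; field_simp
      · simp [cross_apply]; field_simp
      · simp [cross_apply]; field_simp; linear_combination -h
    · refine ⟨![x 2 / a 1, 0, -x 0 / a 1], ?_⟩
      funext i
      fin_cases i
      · simp [cross_apply]; field_simp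
      · simp [cross_apply]; field_simp; linear_combination -h
      · simp [cross_apply]; field_simp
  · refine ⟨![0, -x 2 / a 0, x 1 / a 0], ?_⟩
    funext i
    fin_cases i
    · simp [cross_apply]; field_simp; linear_combination -h
    · simp [cross_apply]; field_simp
    · simp [cross_apply]; field_simp

theorem u_dense_dn_N {L : Type} [Field L] (p : ℕ) [Fact p.Prime] [CharP L p] (s t : L) :
    ((s + t) ^ p) ^ p = (s ^ p) ^ p + (t ^ p) ^ p := by
  rw [add_pow_char, add_pow_char]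

theorem dense {L : Type} [Field L] [IsAlgClosed L] (p : ℕ) [Fact p.Prime] [CharP L p] (τ : L)
    (hτ : τ ≠ 0) (h2 : (2 : L) ≠ 0) (f : MvPolynomial (Fin 3 × Fin 3) L)
    (hf : ∀ a : Fin 3 → L, eval (par τ p a) f = 0) (v : Fin 3 × Fin 3 → L)
    (hv : ∀ g ∈ EqSet τ p, eval v g = 0) : eval v f = 0 := by
  have hp0 : 0 < p := (Fact.out : p.Prime).pos
  have hpp : 1 < p * p := by
    have := (Fact.out : p.Prime).one_lt
    nlinarith
  by_cases hv0 : v = 0
  · have h0 : par τ p (0 : Fin 3 → L) = 0 := by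
      unfold par
      have : (fun i j => xv p (0 : Fin 3 → L) i * (0 : Fin 3 → L) j ^ p) = fun _ _ => (0 : L) := by
        funext i j
        simp [zero_pow hp0.ne']
      rw [this]
      funext ij
      unfold zz
      split_ifs <;> simp
    rw [hv0, ← h0]
    exact hf 0
  obtain ⟨x, y, hx, hy, hxy, hF, hG⟩ := struct p τ hτ h2 v hv0 hv
  obtain ⟨a, ha, hay, hxa⟩ := exists_root p x y hy hF
  have hvz : v = zz L τ (fun i j => x i * a j ^ p) := by
    have h3 := zz_hh (R := L) τ hτ h2 v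
    rw [← h3]
    congr 1
    funext i j
    rw [hay]
    exact hxy i j
  by_cases h3 : xv p a = 0
  swap
  · obtain ⟨b, hb⟩ := par_of p τ x a hx hxa (by
      rw [← hG]
      refine Finset.sum_congr rfl fun i _ => ?_
      rw [hay, mul_comm]) h3
    rw [hvz, ← hb]
    exact hf b
  -- exceptional points
  obtain ⟨b, hb⟩ := u_dense_dn_cross x a ha hxa
  obtain ⟨i0, hi0⟩ : ∃ i, a i ≠ 0 := by
    by_contra hcon; push Not at hcon; exact ha (funext hcon)
  have hN : ∃ c : L, c ≠ 0 ∧ ∀ i, (a i ^ p) ^ p = c * a i := by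
    refine ⟨(a i0 ^ p) ^ p / a i0, div_ne_zero (pow_ne_zero _ (pow_ne_zero _ hi0)) hi0, ?_⟩
    have e0 := congrFun h3 0
    have e1 := congrFun h3 1
    have e2 := congrFun h3 2
    unfold xv at e0 e1 e2
    simp only [cross_apply] at e0 e1 e2
    simp at e0 e1 e2
    intro i
    rw [div_mul_eq_mul_div, eq_div_iff hi0]
    have key : ∀ i j : Fin 3, (a i ^ p) ^ p * a j = (a j ^ p) ^ p * a i := by
      intro i j
      fin_cases i <;> fin_cases j <;> simp
      · linear_combination -e2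
      · linear_combination e1
      · linear_combination e2
      · linear_combination -e0
      · linear_combination -e1
      · linear_combination e0
    exact key i i0
  obtain ⟨c, hc, hN⟩ := hN
  set Nb : Fin 3 → L := fun i => (b i ^ p) ^ p with hNb
  set u : Fin 3 → L := crossProduct a Nb with hu
  set w : Fin 3 → L := crossProduct b Nb with hw
  -- the curve
  let DD : Fin 3 → Polynomial L := fun i => Polynomial.C (x i) +
    Polynomial.C c⁻¹ * Polynomial.X ^ (p * p - 1) *
      (Polynomial.C (u i) + Polynomial.X * Polynomial.C (w i))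
  let AA : Fin 3 → Polynomial L := fun j => Polynomial.C (a j) + Polynomial.X * Polynomial.C (b j)
  let ww : Fin 3 × Fin 3 → Polynomial L := zz (Polynomial L) τ (fun i j => DD i * AA j ^ p)
  have hww : ∀ s : L, (fun ij => (ww ij).eval s) = zz L τ (fun i j =>
      (x i + c⁻¹ * s ^ (p * p - 1) * (u i + s * w i)) * (a j + s * b j) ^ p) := by
    intro s
    funext ij
    have h4 := u_dense_dn_zz_map (Polynomial.aeval s : Polynomial L →ₐ[L] L) τ
      (fun i j => DD i * AA j ^ p) ij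
    rw [Polynomial.coe_aeval_eq_eval] at h4
    show Polynomial.eval s (zz (Polynomial L) τ (fun i j => DD i * AA j ^ p) ij) = _
    rw [h4]
    congr 1
    funext i j
    simp [DD, AA]
    ring
  have heval : ∀ s : L, (aeval ww f).eval s = eval (fun ij => (ww ij).eval s) f := by
    intro s
    have h5 : (Polynomial.aeval s : Polynomial L →ₐ[L] L) (aeval ww f) =
        aeval (fun ij => (Polynomial.aeval s : Polynomial L →ₐ[L] L) (ww ij)) f := by
      rw [← MvPolynomial.comp_aeval_apply]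
    rw [Polynomial.coe_aeval_eq_eval] at h5
    rw [h5]
    rfl
  have hz : ∀ s : L, s ≠ 0 → (aeval ww f).eval s = 0 := by
    intro s hs
    rw [heval, hww]
    obtain ⟨m, hm⟩ := IsAlgClosed.exists_pow_nat_eq ((c * s)⁻¹) (n := 1 + p * p + p) (by omega)
    have hcs : c * s ≠ 0 := mul_ne_zero hc hs
    have hpar := u_dense_dn_par_smul p τ (fun j => a j + s * b j)
      (fun i => x i + c⁻¹ * s ^ (p * p - 1) * (u i + s * w i)) m (c * s)
      (by rw [hm, inv_mul_cancel₀ hcs]) ?_
    · rw [← hpar]; exact hf _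
    · intro i
      have hs' : s ^ (p * p) = s * s ^ (p * p - 1) := by
        rw [← pow_succ']
        congr 1
        omega
      have hNs : ∀ i, ((a i + s * b i) ^ p) ^ p = c * a i + s * s ^ (p * p - 1) * Nb i := by
        intro i
        rw [u_dense_dn_N, hN, mul_pow, mul_pow, ← pow_mul, hs']
      have hb0 := congrFun hb 0
      have hb1 := congrFun hb 1
      have hb2 := congrFun hb 2
      simp only [cross_apply] at hb0 hb1 hb2
      simp at hb0 hb1 hb2
      have hcc : c * c⁻¹ = 1 := mul_inv_cancel₀ hc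
      unfold xv
      simp only [hNs, hu, hw]
      fin_cases i <;> simp only [cross_apply] <;> simp
      · rw [← hb0]
        linear_combination (-(s * s ^ (p * p - 1)) * (a 1 * Nb 2 - a 2 * Nb 1 +
          s * (b 1 * Nb 2 - b 2 * Nb 1))) * hcc
      · rw [← hb1]
        linear_combination (-(s * s ^ (p * p - 1)) * (a 2 * Nb 0 - a 0 * Nb 2 +
          s * (b 2 * Nb 0 - b 0 * Nb 2))) * hcc
      · rw [← hb2]
        linear_combination (-(s * s ^ (p * p - 1)) * (a 0 * Nb 1 - a 1 * Nb 0 +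
          s * (b 0 * Nb 1 - b 1 * Nb 0))) * hcc
  have hzero : aeval ww f = 0 := by
    apply Polynomial.eq_zero_of_infinite_isRoot
    refine Set.Infinite.mono (s := {s : L | s ≠ 0}) (fun s hs => hz s hs) ?_
    have : ({s : L | s ≠ 0} : Set L) = {0}ᶜ := rfl
    rw [this]
    exact (Set.finite_singleton (0 : L)).infinite_compl
  have h6 := heval 0
  rw [hzero, hww] at h6
  rw [hvz]
  have h7 : (fun i j => (x i + c⁻¹ * (0 : L) ^ (p * p - 1) * (u i + 0 * w i)) *
      (a j + 0 * b j) ^ p) = fun i j => x i * a j ^ p := by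
    funext i j
    rw [zero_pow (by omega)]
    simp
  rw [h7] at h6
  rw [← h6]
  simp

end

/-! ### irred -/

section

theorem u_irred_par_map {L : Type} [Field L] {R R' : Type} [CommRing R] [Algebra L R] [CommRing R']
    [Algebra L R'] (φ : R →ₐ[L] R') (τ : L) (q : ℕ) (a : Fin 3 → R) (i : Fin 3 × Fin 3) :
    φ (par τ q a i) = par τ q (fun j => φ (a j)) i := by
  have hx : ∀ j, φ (xv q a j) = xv q (fun j => φ (a j)) j := by
    intro j
    unfold xv
    fin_cases j <;> simp [cross_apply]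
  unfold par zz
  simp only
  split_ifs
  · simp only [map_mul, map_pow, hx]
  · simp only [map_mul, map_add, map_pow, hx, AlgHom.commutes]
  · simp only [map_mul, map_sub, map_pow, hx, AlgHom.commutes]

theorem u_irred_par_eval {L : Type} [Field L] (τ : L) (q : ℕ) (b : Fin 3 → L)
    (f : MvPolynomial (Fin 3 × Fin 3) L) :
    eval b (aeval (par τ q (X : Fin 3 → MvPolynomial (Fin 3) L)) f) = eval (par τ q b) f := by
  have h1 : (aeval b : MvPolynomial (Fin 3) L →ₐ[L] L)
      (aeval (par τ q (X : Fin 3 → MvPolynomial (Fin 3) L)) f) = aeval (par τ q b) f := by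
    rw [← AlgHom.comp_apply, comp_aeval]
    congr 2
    funext i
    rw [u_irred_par_map]
    simp
  rw [← coe_aeval_eq_eval, ← coe_aeval_eq_eval]
  exact h1

theorem irred {L : Type} [Field L] [IsAlgClosed L] (p : ℕ) [Fact p.Prime] [CharP L p] (τ : L)
    (hτ : τ ≠ 0) (h2 : (2 : L) ≠ 0) (f g : MvPolynomial (Fin 3 × Fin 3) L)
    (h : ∀ v, (∀ e ∈ EqSet τ p, eval v e = 0) → eval v f * eval v g = 0) :
    (∀ v, (∀ e ∈ EqSet τ p, eval v e = 0) → eval v f = 0) ∨
    (∀ v, (∀ e ∈ EqSet τ p, eval v e = 0) → eval v g = 0) := by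
  haveI : Infinite L := IsAlgClosed.instInfinite
  have hsol : ∀ b : Fin 3 → L, ∀ e ∈ EqSet τ p, eval (par τ p b) e = 0 := by
    intro b e he
    exact par_sol (R := L) p τ hτ h2 b e he
  have hFG : (aeval (par τ p (X : Fin 3 → MvPolynomial (Fin 3) L)) f) *
      (aeval (par τ p (X : Fin 3 → MvPolynomial (Fin 3) L)) g) = 0 := by
    apply MvPolynomial.funext
    intro b
    rw [map_mul, u_irred_par_eval, u_irred_par_eval, map_zero]
    exact h _ (hsol b)
  rcases mul_eq_zero.1 hFG with h0 | h0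
  · left
    intro v hv
    refine dense p τ hτ h2 f (fun a => ?_) v hv
    rw [← u_irred_par_eval, h0, map_zero]
  · right
    intro v hv
    refine dense p τ hτ h2 g (fun a => ?_) v hv
    rw [← u_irred_par_eval, h0, map_zero]

end

/-! ### extract -/

section

theorem u_extract_ex_aeval_mul {K R : Type} [Field K] [CommRing R] [Algebra K R] {ι : Type} [Fintype ι]
    (f : MvPolynomial ι K) (n : ℕ) (hf : f.IsHomogeneous n) (g : R) (ψ : ι → R) :
    aeval (fun i => g * ψ i) f = g ^ n * aeval ψ f := by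
  rw [aeval_def, aeval_def, eval₂_eq', eval₂_eq', Finset.mul_sum]
  apply Finset.sum_congr rfl
  intro d hd
  have hn : ∑ i, d i = n := by
    have := hf (mem_support_iff.mp hd)
    rw [Finsupp.weight_apply] at this
    rw [← this, Finsupp.sum_fintype _ _ (fun i => by simp)]
    simp
  simp only [mul_pow, Finset.prod_mul_distrib]
  rw [Finset.prod_pow_eq_pow_sum, hn]
  ring

theorem extract {K L : Type} [Field K] [Field L] [Algebra K L] {ι : Type} [Fintype ι]
    (S : Set (MvPolynomial ι K)) (hS : ∀ f ∈ S, ∃ n, f.IsHomogeneous n) (P Q : ι → L)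
    (hP : P ≠ 0) (hQ : Q ≠ 0) (Φ : ι → Polynomial L) (h : ∀ f ∈ S, aeval Φ f = 0)
    (h0 : ∀ i, (Φ i).eval 0 = P i) (h1 : ∀ i, (Φ i).eval 1 = Q i) :
    OnRatCurve K L S P Q := by
  classical
  obtain ⟨g, hg⟩ := (inferInstance : (Ideal.span (Set.range Φ)).IsPrincipal)
  have hg' : Ideal.span (Set.range Φ) = Ideal.span {g} := hg
  have hΦg : ∀ i, ∃ ψ, Φ i = g * ψ := by
    intro i
    have : Φ i ∈ Ideal.span {g} := by
      rw [← hg']
      exact Ideal.subset_span ⟨i, rfl⟩
    exact Ideal.mem_span_singleton.mp this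
  choose ψ hψ using hΦg
  have hgΦ : g ∈ Ideal.span (Set.range Φ) := by
    rw [hg']
    exact Ideal.mem_span_singleton_self g
  obtain ⟨c, hc⟩ := (Ideal.mem_span_range_iff_exists_fun).mp hgΦ
  obtain ⟨i₀, hi₀⟩ : ∃ i, P i ≠ 0 := by
    by_contra hcon
    push Not at hcon
    exact hP (funext hcon)
  obtain ⟨i₁, hi₁⟩ : ∃ i, Q i ≠ 0 := by
    by_contra hcon
    push Not at hcon
    exact hQ (funext hcon)
  have hg0 : g.eval 0 ≠ 0 := by
    intro h2
    apply hi₀
    rw [← h0, hψ, Polynomial.eval_mul, h2, zero_mul]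
  have hg1 : g.eval 1 ≠ 0 := by
    intro h2
    apply hi₁
    rw [← h1, hψ, Polynomial.eval_mul, h2, zero_mul]
  have hgne : g ≠ 0 := by
    rintro rfl
    exact hg0 (by simp)
  have hone : ∑ i, c i * ψ i = 1 := by
    apply mul_left_cancel₀ hgne
    rw [mul_one, Finset.mul_sum]
    conv_rhs => rw [← hc]
    apply Finset.sum_congr rfl
    intro i _
    rw [hψ i]
    ring
  have hΦ : Φ = fun i => g * ψ i := funext hψ
  refine ⟨ψ, Finset.univ.sup fun i => (ψ i).natDegree, ?_, ?_, ?_, ?_, ?_, ?_⟩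
  · intro i
    exact Finset.le_sup (f := fun i => (ψ i).natDegree) (Finset.mem_univ i)
  · obtain ⟨i, -, hi⟩ := Finset.exists_mem_eq_sup Finset.univ ⟨i₀, Finset.mem_univ i₀⟩
      (fun i => (ψ i).natDegree)
    by_cases hi0 : ψ i = 0
    · refine ⟨i₀, ?_⟩
      rw [hi, hi0, Polynomial.natDegree_zero]
      have hle : (ψ i₀).natDegree ≤ 0 := by
        have := Finset.le_sup (f := fun i => (ψ i).natDegree) (Finset.mem_univ i₀)
        rw [hi, hi0, Polynomial.natDegree_zero] at this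
        exact this
      intro h2
      apply hi₀
      rw [← h0, hψ, Polynomial.eval_mul]
      rw [Polynomial.eq_C_of_natDegree_le_zero hle, h2]
      simp
    · refine ⟨i, ?_⟩
      rw [hi]
      exact Polynomial.leadingCoeff_ne_zero.mpr hi0
  · intro s
    by_contra hcon
    push Not at hcon
    have := congrArg (Polynomial.eval s) hone
    rw [Polynomial.eval_finsetSum] at this
    simp [hcon] at this
  · intro f hf
    obtain ⟨n, hn⟩ := hS f hf
    have h2 := h f hf
    rw [hΦ, u_extract_ex_aeval_mul f n hn] at h2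
    exact (mul_eq_zero.mp h2).resolve_left (pow_ne_zero n hgne)
  · refine ⟨0, (g.eval 0)⁻¹, inv_ne_zero hg0, fun i => ?_⟩
    rw [← h0, hψ, Polynomial.eval_mul]
    field_simp
  · refine ⟨1, (g.eval 1)⁻¹, inv_ne_zero hg1, fun i => ?_⟩
    rw [← h1, hψ, Polynomial.eval_mul]
    field_simp

end

/-! ### exc -/

section

theorem exc {L : Type} [Field L] [IsAlgClosed L] (p : ℕ) [Fact p.Prime] [CharP L p] (τ : L)
    (hτ : τ ≠ 0) (h2 : (2 : L) ≠ 0) (v : Fin 3 × Fin 3 → L)
    (hv : ∀ g ∈ EqSet τ p, eval v g = 0)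
    (hne : eval v (HH τ 0 0 * HH τ 0 1 ^ (p * p) - HH τ 0 1 * HH τ 0 0 ^ (p * p)) ≠ 0) :
    ∃ b : Fin 3 → L, par τ p b = v := by
  have hpp : p * p ≠ 0 := mul_ne_zero (Fact.out : p.Prime).ne_zero (Fact.out : p.Prime).ne_zero
  have hHH : ∀ i j : Fin 3, eval v (HH τ i j) = hh τ v i j := by
    intro i j
    unfold HH hh
    split_ifs <;> simp
  have hv0 : v ≠ 0 := by
    intro h0
    apply hne
    rw [map_sub, map_mul, map_mul, map_pow, map_pow, hHH, hHH, h0]
    simp [hh]
  obtain ⟨x, y, hx, hy, hxy, h1, h2'⟩ := struct p τ hτ h2 v hv0 hv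
  obtain ⟨a, ha0, ha, hxa⟩ := exists_root p x y hy h1
  have h3 : xv p a ≠ 0 := by
    intro h0
    apply hne
    have h4 := congrFun h0 2
    have h5 : a 0 * (a 1 ^ p) ^ p - a 1 * (a 0 ^ p) ^ p = 0 := by
      simpa [xv, crossProduct] using h4
    have h6 : (a 0 * (a 1 ^ p) ^ p - a 1 * (a 0 ^ p) ^ p) ^ p = 0 := by
      rw [h5]; exact zero_pow (Fact.out : p.Prime).ne_zero
    have h7 : y 0 * y 1 ^ (p * p) - y 1 * y 0 ^ (p * p) = 0 := by
      rw [sub_pow_char, mul_pow, mul_pow, ha, ha, ← pow_mul, ← pow_mul] at h6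
      exact h6
    rw [map_sub, map_mul, map_mul, map_pow, map_pow, hHH, hHH, hxy, hxy, mul_pow, mul_pow]
    linear_combination (x 0 * x 0 ^ (p * p)) * h7
  have h8 : ∑ i, x i * (a i ^ p) ^ p = 0 := by
    rw [← h2']
    refine Finset.sum_congr rfl fun i _ => ?_
    rw [ha, mul_comm]
  obtain ⟨b, hb⟩ := par_of p τ x a hx hxa h8 h3
  refine ⟨b, ?_⟩
  rw [hb]
  have h9 := zz_hh (R := L) τ hτ h2 v
  have h10 : (fun i j => x i * a j ^ p) = (fun i j => hh (algebraMap L L τ) v i j) := by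
    funext i j
    rw [Algebra.algebraMap_self, RingHom.id_apply, hxy, ha]
  rw [h10]
  exact h9

end

/-! ### smooth_a -/

section

theorem u_smooth_a_HH_neg {A : Type} [CommRing A] (τ : A) (i j : Fin 3) : HH (-τ) i j = HH τ j i := by
  rcases lt_trichotomy i j with h | h | h
  · simp [HH, h.ne, h.ne', h, not_lt.2 h.le, sub_eq_add_neg]
  · subst h; simp [HH]
  · simp [HH, h.ne, h.ne', h, not_lt.2 h.le]

theorem smooth_a {A : Type} [CommRing A] (τ : A) (q : ℕ) (k l : Fin 3)
    (J : Ideal (MvPolynomial (Fin 3 × Fin 3) A))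
    (h1 : ∀ i j, mnr τ k l i j ∈ J) (h2 : FF τ q l ∈ J) (h3 : FF (-τ) q k ∈ J) (hq : 1 ≤ q) :
    ∀ g ∈ Ideal.span (EqSet τ q), (HH τ k l) ^ (q + 1) * g ∈ J := by
  have key : ∀ g ∈ EqSet τ q, (HH τ k l) ^ (q + 1) * g ∈ J := by
    have t : ∀ i j, Ideal.Quotient.mk J (HH τ k l) * Ideal.Quotient.mk J (HH τ i j) =
        Ideal.Quotient.mk J (HH τ k j) * Ideal.Quotient.mk J (HH τ i l) := by
      intro i j
      rw [← map_mul, ← map_mul]
      exact Ideal.Quotient.eq.2 (h1 i j)
    have h2' : ∑ i, Ideal.Quotient.mk J (HH τ i i) * (Ideal.Quotient.mk J (HH τ i l)) ^ (q - 1) = 0 := by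
      have := Ideal.Quotient.eq_zero_iff_mem.2 h2
      simpa [FF] using this
    have h3' : ∑ i, Ideal.Quotient.mk J (HH τ i i) * (Ideal.Quotient.mk J (HH τ k i)) ^ (q - 1) = 0 := by
      have := Ideal.Quotient.eq_zero_iff_mem.2 h3
      simpa [FF, u_smooth_a_HH_neg] using this
    rintro g (⟨i, j, i2, j2, rfl⟩ | ⟨l2, rfl⟩ | ⟨k2, rfl⟩)
    · have e : q + 1 = 2 + (q - 1) := by omega
      rw [← Ideal.Quotient.eq_zero_iff_mem]
      simp only [map_mul, map_pow, mnr, map_sub]
      rw [e, pow_add]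
      linear_combination (Ideal.Quotient.mk J (HH τ k l)) ^ (q - 1) *
        (Ideal.Quotient.mk J (HH τ k l) * Ideal.Quotient.mk J (HH τ i2 j2) * t i j
          + Ideal.Quotient.mk J (HH τ k j) * Ideal.Quotient.mk J (HH τ i l) * t i2 j2
          - Ideal.Quotient.mk J (HH τ k l) * Ideal.Quotient.mk J (HH τ i2 j) * t i j2
          - Ideal.Quotient.mk J (HH τ k j2) * Ideal.Quotient.mk J (HH τ i l) * t i2 j)
    · have e : q + 1 = (q - 1) + 2 := by omega
      rw [← Ideal.Quotient.eq_zero_iff_mem, e, pow_add]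
      simp only [map_mul, map_pow, FF, map_sum]
      have : (Ideal.Quotient.mk J (HH τ k l)) ^ (q - 1) *
          ∑ i, Ideal.Quotient.mk J (HH τ i i) * (Ideal.Quotient.mk J (HH τ i l2)) ^ (q - 1) =
          (Ideal.Quotient.mk J (HH τ k l2)) ^ (q - 1) *
          ∑ i, Ideal.Quotient.mk J (HH τ i i) * (Ideal.Quotient.mk J (HH τ i l)) ^ (q - 1) := by
        rw [Finset.mul_sum, Finset.mul_sum]
        refine Finset.sum_congr rfl fun i _ => ?_
        calc _ = Ideal.Quotient.mk J (HH τ i i) * (Ideal.Quotient.mk J (HH τ k l) * Ideal.Quotient.mk J (HH τ i l2)) ^ (q - 1) := by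
              rw [mul_pow]; ring
          _ = _ := by rw [t, mul_pow]; ring
      rw [h2', mul_zero] at this
      calc _ = (Ideal.Quotient.mk J (HH τ k l)) ^ 2 * ((Ideal.Quotient.mk J (HH τ k l)) ^ (q - 1) *
          ∑ i, Ideal.Quotient.mk J (HH τ i i) * (Ideal.Quotient.mk J (HH τ i l2)) ^ (q - 1)) := by ring
        _ = 0 := by rw [this, mul_zero]
    · have e : q + 1 = (q - 1) + 2 := by omega
      rw [← Ideal.Quotient.eq_zero_iff_mem, e, pow_add]
      simp only [map_mul, map_pow, FF, map_sum, u_smooth_a_HH_neg]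
      have : (Ideal.Quotient.mk J (HH τ k l)) ^ (q - 1) *
          ∑ i, Ideal.Quotient.mk J (HH τ i i) * (Ideal.Quotient.mk J (HH τ k2 i)) ^ (q - 1) =
          (Ideal.Quotient.mk J (HH τ k2 l)) ^ (q - 1) *
          ∑ i, Ideal.Quotient.mk J (HH τ i i) * (Ideal.Quotient.mk J (HH τ k i)) ^ (q - 1) := by
        rw [Finset.mul_sum, Finset.mul_sum]
        refine Finset.sum_congr rfl fun i _ => ?_
        calc _ = Ideal.Quotient.mk J (HH τ i i) * (Ideal.Quotient.mk J (HH τ k l) * Ideal.Quotient.mk J (HH τ k2 i)) ^ (q - 1) := by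
              rw [mul_pow]; ring
          _ = _ := by rw [t, mul_pow]; ring
      rw [h3', mul_zero] at this
      calc _ = (Ideal.Quotient.mk J (HH τ k l)) ^ 2 * ((Ideal.Quotient.mk J (HH τ k l)) ^ (q - 1) *
          ∑ i, Ideal.Quotient.mk J (HH τ i i) * (Ideal.Quotient.mk J (HH τ k2 i)) ^ (q - 1)) := by ring
        _ = 0 := by rw [this, mul_zero]
  intro g hg
  have hle : Ideal.span (EqSet τ q) ≤ Submodule.comap (LinearMap.mulLeft (MvPolynomial (Fin 3 × Fin 3) A) ((HH τ k l) ^ (q + 1))) J := by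
    rw [Ideal.span_le]
    intro g hg
    exact key g hg
  exact hle hg

end

/-! ### smooth_b -/

section

section aux352

variable {L : Type} [Field L]

/-- directional derivative at `v` in the direction `w` -/
noncomputable def u_smooth_b_D352 (v w : Fin 3 × Fin 3 → L) (f : MvPolynomial (Fin 3 × Fin 3) L) : L :=
  ∑ i, w i * eval v (pderiv i f)

theorem u_smooth_b_D_mul352 (v w : Fin 3 × Fin 3 → L) (f g : MvPolynomial (Fin 3 × Fin 3) L) :
    u_smooth_b_D352 v w (f * g) = u_smooth_b_D352 v w f * eval v g + eval v f * u_smooth_b_D352 v w g := by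
  unfold u_smooth_b_D352
  rw [Finset.sum_mul, Finset.mul_sum, ← Finset.sum_add_distrib]
  apply Finset.sum_congr rfl
  intro i _
  rw [Derivation.leibniz, smul_eq_mul, smul_eq_mul, map_add, map_mul, map_mul]
  ring

theorem u_smooth_b_D_add352 (v w : Fin 3 × Fin 3 → L) (f g : MvPolynomial (Fin 3 × Fin 3) L) :
    u_smooth_b_D352 v w (f + g) = u_smooth_b_D352 v w f + u_smooth_b_D352 v w g := by
  unfold u_smooth_b_D352
  rw [← Finset.sum_add_distrib]
  apply Finset.sum_congr rfl
  intro i _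
  rw [map_add, map_add]
  ring

theorem u_smooth_b_D_sub352 (v w : Fin 3 × Fin 3 → L) (f g : MvPolynomial (Fin 3 × Fin 3) L) :
    u_smooth_b_D352 v w (f - g) = u_smooth_b_D352 v w f - u_smooth_b_D352 v w g := by
  unfold u_smooth_b_D352
  rw [← Finset.sum_sub_distrib]
  apply Finset.sum_congr rfl
  intro i _
  rw [map_sub, map_sub]
  ring

theorem u_smooth_b_D_sum352 (v w : Fin 3 × Fin 3 → L) (f : Fin 3 → MvPolynomial (Fin 3 × Fin 3) L) :
    u_smooth_b_D352 v w (∑ j, f j) = ∑ j, u_smooth_b_D352 v w (f j) := by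
  rw [Fin.sum_univ_three, Fin.sum_univ_three, u_smooth_b_D_add352, u_smooth_b_D_add352]

theorem u_smooth_b_D_C352 (v w : Fin 3 × Fin 3 → L) (a : L) : u_smooth_b_D352 v w (C a) = 0 := by
  unfold u_smooth_b_D352
  apply Finset.sum_eq_zero
  intro i _
  rw [pderiv_C, map_zero, mul_zero]

theorem u_smooth_b_D_X352 (v w : Fin 3 × Fin 3 → L) (j : Fin 3 × Fin 3) : u_smooth_b_D352 v w (X j) = w j := by
  unfold u_smooth_b_D352
  rw [Finset.sum_eq_single j]
  · rw [pderiv_X_self, map_one, mul_one]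
  · intro i _ hij
    rw [pderiv_X_of_ne (fun h => hij h.symm), map_zero, mul_zero]
  · intro h
    exact absurd (Finset.mem_univ j) h

theorem u_smooth_b_D_pow352 (v w : Fin 3 × Fin 3 → L) (f : MvPolynomial (Fin 3 × Fin 3) L) (n : ℕ) :
    u_smooth_b_D352 v w (f ^ (n + 1)) = ((n : L) + 1) * (eval v f) ^ n * u_smooth_b_D352 v w f := by
  induction n with
  | zero => simp
  | succ n ih =>
    rw [pow_succ, u_smooth_b_D_mul352, ih, map_pow]
    push_cast
    ring

theorem u_smooth_b_eval_HH352 (v : Fin 3 × Fin 3 → L) (τ : L) (i j : Fin 3) :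
    eval v (HH τ i j) = hh τ v i j := by
  unfold HH hh
  split_ifs <;> simp

theorem u_smooth_b_D_HH352 (v w : Fin 3 × Fin 3 → L) (τ : L) (i j : Fin 3) :
    u_smooth_b_D352 v w (HH τ i j) = hh τ w i j := by
  unfold HH hh
  split_ifs
  · rw [u_smooth_b_D_X352]
  · rw [u_smooth_b_D_add352, u_smooth_b_D_mul352, u_smooth_b_D_X352, u_smooth_b_D_X352, u_smooth_b_D_C352, eval_C]
    ring
  · rw [u_smooth_b_D_sub352, u_smooth_b_D_mul352, u_smooth_b_D_X352, u_smooth_b_D_X352, u_smooth_b_D_C352, eval_C]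
    ring

theorem u_smooth_b_HH_neg352 (τ : L) (i j : Fin 3) : HH (-τ) i j = HH τ j i := by
  unfold HH
  rcases lt_trichotomy i j with h | h | h
  · rw [if_neg h.ne, if_pos h, if_neg h.ne', if_neg (not_lt.2 h.le), C_neg]
    ring
  · subst h
    rw [if_pos rfl, if_pos rfl]
  · rw [if_neg h.ne', if_neg (not_lt.2 h.le), if_neg h.ne, if_pos h, C_neg]
    ring

theorem u_smooth_b_D_mnr352 (v w : Fin 3 × Fin 3 → L) (τ : L) (i j k l : Fin 3) :
    u_smooth_b_D352 v w (mnr τ i j k l) =
      (hh τ w i j * hh τ v k l + hh τ v i j * hh τ w k l) -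
        (hh τ w i l * hh τ v k j + hh τ v i l * hh τ w k j) := by
  unfold mnr
  rw [u_smooth_b_D_sub352, u_smooth_b_D_mul352, u_smooth_b_D_mul352]
  simp only [u_smooth_b_D_HH352, u_smooth_b_eval_HH352]

theorem u_smooth_b_D_FF352 (v w : Fin 3 × Fin 3 → L) (τ : L) (m : ℕ) (l : Fin 3) :
    u_smooth_b_D352 v w (FF τ (m + 2) l) =
      ∑ i, (hh τ w i i * hh τ v i l ^ (m + 1) +
        hh τ v i i * (((m : L) + 1) * hh τ v i l ^ m * hh τ w i l)) := by
  unfold FF
  have e : m + 2 - 1 = m + 1 := rfl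
  rw [u_smooth_b_D_sum352, e]
  apply Finset.sum_congr rfl
  intro i _
  rw [u_smooth_b_D_mul352, u_smooth_b_D_pow352, u_smooth_b_D_HH352, u_smooth_b_D_HH352, map_pow, u_smooth_b_eval_HH352, u_smooth_b_eval_HH352]

theorem u_smooth_b_D_FFn352 (v w : Fin 3 × Fin 3 → L) (τ : L) (m : ℕ) (k : Fin 3) :
    u_smooth_b_D352 v w (FF (-τ) (m + 2) k) =
      ∑ i, (hh τ w i i * hh τ v k i ^ (m + 1) +
        hh τ v i i * (((m : L) + 1) * hh τ v k i ^ m * hh τ w k i)) := by
  unfold FF
  have e : m + 2 - 1 = m + 1 := rfl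
  rw [u_smooth_b_D_sum352, e]
  apply Finset.sum_congr rfl
  intro i _
  rw [u_smooth_b_HH_neg352, u_smooth_b_HH_neg352, u_smooth_b_D_mul352, u_smooth_b_D_pow352, u_smooth_b_D_HH352, u_smooth_b_D_HH352, map_pow, u_smooth_b_eval_HH352, u_smooth_b_eval_HH352]

end aux352

theorem smooth_b {L : Type} [Field L] (p : ℕ) [Fact p.Prime] [CharP L p] (τ : L)
    (hτ : τ ≠ 0) (h2 : (2 : L) ≠ 0) (v : Fin 3 × Fin 3 → L) (x y : Fin 3 → L)
    (hxy : ∀ i j, hh τ v i j = x i * y j) (hF : ∑ i, x i ^ p * y i = 0)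
    (hG : ∑ i, y i ^ p * x i = 0) (k l : Fin 3) (hk : x k ≠ 0) (hl : y l ≠ 0) :
    LinearIndependent L (fun j => fun i => eval v (pderiv i
      ((![mnr τ k l (k + 1) (l + 1), mnr τ k l (k + 1) (l + 2), mnr τ k l (k + 2) (l + 1),
        mnr τ k l (k + 2) (l + 2), FF τ p l, FF (-τ) p k] :
          Fin 6 → MvPolynomial (Fin 3 × Fin 3) L) j))) := by
  obtain ⟨m, rfl⟩ : ∃ m, p = m + 2 := by
    have := (Fact.out : p.Prime).two_le
    exact ⟨p - 2, by omega⟩
  have hp0 : (m : L) + 1 = -1 := by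
    have h := CharP.cast_eq_zero L (m + 2)
    push_cast at h
    linear_combination h
  rw [Fintype.linearIndependent_iff]
  intro g hg
  obtain ⟨F, hFF⟩ : ∃ F : Fin 6 → MvPolynomial (Fin 3 × Fin 3) L,
    F = ![mnr τ k l (k + 1) (l + 1), mnr τ k l (k + 1) (l + 2), mnr τ k l (k + 2) (l + 1),
        mnr τ k l (k + 2) (l + 2), FF τ (m + 2) l, FF (-τ) (m + 2) k] := ⟨_, rfl⟩
  rw [← hFF] at hg
  have key : ∀ w : Fin 3 × Fin 3 → L, g 0 * u_smooth_b_D352 v w (mnr τ k l (k + 1) (l + 1)) +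
      g 1 * u_smooth_b_D352 v w (mnr τ k l (k + 1) (l + 2)) + g 2 * u_smooth_b_D352 v w (mnr τ k l (k + 2) (l + 1)) +
      g 3 * u_smooth_b_D352 v w (mnr τ k l (k + 2) (l + 2)) + g 4 * u_smooth_b_D352 v w (FF τ (m + 2) l) +
      g 5 * u_smooth_b_D352 v w (FF (-τ) (m + 2) k) = 0 := by
    intro w
    have h1 : ∀ i, ∑ j, g j * eval v (pderiv i (F j)) = 0 := by
      intro i
      have := congrFun hg i
      simpa using this
    have h3 : ∑ j, g j * u_smooth_b_D352 v w (F j) = 0 := by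
      unfold u_smooth_b_D352
      simp only [Finset.mul_sum]
      rw [Finset.sum_comm]
      apply Finset.sum_eq_zero
      intro i _
      have h4 : ∑ j, g j * (w i * eval v (pderiv i (F j))) =
          w i * ∑ j, g j * eval v (pderiv i (F j)) := by
        rw [Finset.mul_sum]
        apply Finset.sum_congr rfl
        intro j _
        ring
      rw [h4, h1, mul_zero]
    rw [Fin.sum_univ_six, hFF] at h3
    exact h3
  -- the general formula with an arbitrary matrix `W`
  have keyW : ∀ W : Fin 3 → Fin 3 → L,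
      g 0 * ((W k l * (x (k + 1) * y (l + 1)) + x k * y l * W (k + 1) (l + 1)) -
        (W k (l + 1) * (x (k + 1) * y l) + x k * y (l + 1) * W (k + 1) l)) +
      g 1 * ((W k l * (x (k + 1) * y (l + 2)) + x k * y l * W (k + 1) (l + 2)) -
        (W k (l + 2) * (x (k + 1) * y l) + x k * y (l + 2) * W (k + 1) l)) +
      g 2 * ((W k l * (x (k + 2) * y (l + 1)) + x k * y l * W (k + 2) (l + 1)) -
        (W k (l + 1) * (x (k + 2) * y l) + x k * y (l + 1) * W (k + 2) l)) +
      g 3 * ((W k l * (x (k + 2) * y (l + 2)) + x k * y l * W (k + 2) (l + 2)) -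
        (W k (l + 2) * (x (k + 2) * y l) + x k * y (l + 2) * W (k + 2) l)) +
      g 4 * (∑ i, (W i i * (x i * y l) ^ (m + 1) +
        x i * y i * (-1 * (x i * y l) ^ m * W i l))) +
      g 5 * (∑ i, (W i i * (x k * y i) ^ (m + 1) +
        x i * y i * (-1 * (x k * y i) ^ m * W k i))) = 0 := by
    intro W
    have h := key (zz L τ W)
    have hW : ∀ i j, hh τ (zz L τ W) i j = W i j := by
      intro i j
      have := hh_zz (R := L) τ hτ h2 W i j
      exact this
    rw [u_smooth_b_D_mnr352, u_smooth_b_D_mnr352, u_smooth_b_D_mnr352, u_smooth_b_D_mnr352, u_smooth_b_D_FF352, u_smooth_b_D_FFn352] at h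
    simp only [hW, hxy, hp0] at h
    exact h
  -- test 1
  have h4 : g 4 = 0 := by
    have h := keyW (fun i j => x i * (if j = k then 1 else 0))
    have e1 : (∑ i, (x i * (if i = k then (1 : L) else 0) * (x i * y l) ^ (m + 1) +
        x i * y i * (-1 * (x i * y l) ^ m * (x i * (if l = k then 1 else 0))))) =
        x k ^ (m + 2) * y l ^ (m + 1) := by
      have e2 : ∀ i, (x i * (if i = k then (1 : L) else 0) * (x i * y l) ^ (m + 1) +
        x i * y i * (-1 * (x i * y l) ^ m * (x i * (if l = k then 1 else 0)))) =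
        (if i = k then x i ^ (m + 2) * y l ^ (m + 1) else 0) +
          (-(y l ^ m * (if l = k then 1 else 0))) * (x i ^ (m + 2) * y i) := by
        intro i
        by_cases hi : i = k
        · rw [if_pos hi, if_pos hi]
          ring
        · rw [if_neg hi, if_neg hi]
          ring
      simp only [e2]
      rw [Finset.sum_add_distrib, ← Finset.mul_sum, hF, mul_zero, add_zero,
        Finset.sum_ite_eq' Finset.univ k, if_pos (Finset.mem_univ k)]
    have e3 : (∑ i, (x i * (if i = k then (1 : L) else 0) * (x k * y i) ^ (m + 1) +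
        x i * y i * (-1 * (x k * y i) ^ m * (x k * (if i = k then 1 else 0))))) = 0 := by
      apply Finset.sum_eq_zero
      intro i _
      ring
    rw [e1, e3] at h
    have h5 : g 4 * (x k ^ (m + 2) * y l ^ (m + 1)) = 0 := by
      linear_combination h
    rcases mul_eq_zero.1 h5 with h6 | h6
    · exact h6
    · exact absurd h6 (mul_ne_zero (pow_ne_zero _ hk) (pow_ne_zero _ hl))
  -- test 2
  have h5 : g 5 = 0 := by
    have h := keyW (fun i j => (if i = l then 1 else 0) * y j)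
    have e1 : (∑ i, ((if i = l then (1 : L) else 0) * y i * (x i * y l) ^ (m + 1) +
        x i * y i * (-1 * (x i * y l) ^ m * ((if i = l then 1 else 0) * y l)))) = 0 := by
      apply Finset.sum_eq_zero
      intro i _
      ring
    have e3 : (∑ i, ((if i = l then (1 : L) else 0) * y i * (x k * y i) ^ (m + 1) +
        x i * y i * (-1 * (x k * y i) ^ m * ((if k = l then 1 else 0) * y i)))) =
        x k ^ (m + 1) * y l ^ (m + 2) := by
      have e2 : ∀ i, ((if i = l then (1 : L) else 0) * y i * (x k * y i) ^ (m + 1) +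
        x i * y i * (-1 * (x k * y i) ^ m * ((if k = l then 1 else 0) * y i))) =
        (if i = l then x k ^ (m + 1) * y i ^ (m + 2) else 0) +
          (-(x k ^ m * (if k = l then 1 else 0))) * (y i ^ (m + 2) * x i) := by
        intro i
        by_cases hi : i = l
        · rw [if_pos hi, if_pos hi]
          ring
        · rw [if_neg hi, if_neg hi]
          ring
      simp only [e2]
      rw [Finset.sum_add_distrib, ← Finset.mul_sum, hG, mul_zero, add_zero,
        Finset.sum_ite_eq' Finset.univ l, if_pos (Finset.mem_univ l)]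
    rw [e1, e3] at h
    have h5 : g 5 * (x k ^ (m + 1) * y l ^ (m + 2)) = 0 := by
      linear_combination h
    rcases mul_eq_zero.1 h5 with h6 | h6
    · exact h6
    · exact absurd h6 (mul_ne_zero (pow_ne_zero _ hk) (pow_ne_zero _ hl))
  have a1 : ∀ a : Fin 3, a ≠ a + 1 := by decide
  have a2 : ∀ a : Fin 3, a ≠ a + 2 := by decide
  have a3 : ∀ a : Fin 3, a + 1 ≠ a + 2 := by decide
  have hxyk : x k * y l ≠ 0 := mul_ne_zero hk hl
  have h0 : g 0 = 0 := by
    have h := keyW (fun i j => if i = k + 1 ∧ j = l + 1 then 1 else 0)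
    simp only [h4, h5, zero_mul, add_zero, a1, a2, (a3 _).symm, (a1 _).symm, false_and, and_false,
      if_false, true_and, and_true, if_true, mul_zero, sub_zero, zero_add, mul_one] at h
    exact (mul_eq_zero.1 h).resolve_right hxyk
  have h1 : g 1 = 0 := by
    have h := keyW (fun i j => if i = k + 1 ∧ j = l + 2 then 1 else 0)
    simp only [h4, h5, zero_mul, add_zero, a1, a2, a3, (a3 _).symm, (a1 _).symm, false_and,
      and_false, if_false, true_and, and_true, if_true, mul_zero, sub_zero, zero_add,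
      mul_one] at h
    exact (mul_eq_zero.1 h).resolve_right hxyk
  have h2' : g 2 = 0 := by
    have h := keyW (fun i j => if i = k + 2 ∧ j = l + 1 then 1 else 0)
    simp only [h4, h5, zero_mul, add_zero, a1, a2, a3, (a3 _).symm, (a1 _).symm, false_and,
      and_false, if_false, true_and, and_true, if_true, mul_zero, sub_zero, zero_add,
      mul_one] at h
    exact (mul_eq_zero.1 h).resolve_right hxyk
  have h3 : g 3 = 0 := by
    have h := keyW (fun i j => if i = k + 2 ∧ j = l + 2 then 1 else 0)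
    simp only [h4, h5, zero_mul, add_zero, a1, a2, a3, (a3 _).symm, (a1 _).symm, false_and,
      and_false, if_false, true_and, and_true, if_true, mul_zero, sub_zero, zero_add,
      mul_one] at h
    exact (mul_eq_zero.1 h).resolve_right hxyk
  intro j
  fin_cases j
  · exact h0
  · exact h1
  · exact h2'
  · exact h3
  · exact h4
  · exact h5

end

/-! ### kpt -/

section

theorem u_kpt_kpt_sgH (p : ℕ) [Fact p.Prime] (w : Fin 3 × Fin 3 → K' p) (hw : ∀ i, sg p (w i) = w i)
    (i j : Fin 3) : sg p (hh (TT p) w i j) = hh (TT p) w j i := by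
  have hT := (sg_facts p).2.2.1
  unfold hh
  by_cases h1 : i = j
  · subst h1
    rw [if_pos rfl, hw]
  · rw [if_neg h1, if_neg (Ne.symm h1)]
    rcases lt_or_gt_of_ne h1 with h2 | h2
    · rw [if_pos h2, if_neg (not_lt.mpr h2.le), map_add, map_mul, hw, hw, hT]
      ring
    · rw [if_neg (not_lt.mpr h2.le), if_pos h2, map_sub, map_mul, hw, hw, hT]
      ring

theorem u_kpt_kpt_Hne (p : ℕ) [Fact p.Prime] (hp : p ≠ 2) (w : Fin 3 × Fin 3 → K' p) (hw : w ≠ 0) :
    ∃ i j, hh (TT p) w i j ≠ 0 := by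
  by_contra hcon
  push Not at hcon
  apply hw
  have h1 := zz_hh (R := K' p) (TT p) (sg_facts p).2.2.2.1 ((sg_facts p).2.2.2.2 hp) w
  rw [← h1]
  funext ij
  have h2 : ∀ i j, hh (algebraMap (K' p) (K' p) (TT p)) w i j = 0 := hcon
  unfold zz
  simp only [h2, add_zero, sub_zero, mul_zero, ite_self]
  rfl

theorem u_kpt_kpt_field (p : ℕ) [Fact p.Prime]
    (hmain : ∀ x y z : Polynomial (ZMod p), ¬ (x = 0 ∧ y = 0 ∧ z = 0) →
      x ^ p * x.comp (-Polynomial.X) + y ^ p * y.comp (-Polynomial.X) +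
        z ^ p * z.comp (-Polynomial.X) = 0 →
      ∃ a b c : ZMod p, ¬ (a = 0 ∧ b = 0 ∧ c = 0) ∧
        y * Polynomial.C c = z * Polynomial.C b ∧ z * Polynomial.C a = x * Polynomial.C c ∧
        x * Polynomial.C b = y * Polynomial.C a)
    (X : Fin 3 → K' p) (l : Fin 3) (hl : X l ≠ 0) (hX : ∑ i, X i ^ p * sg p (X i) = 0) :
    X 0 * sg p (X 1) = X 1 * sg p (X 0) := by
  have hsg := (sg_facts p).1
  obtain ⟨b, hb⟩ := IsLocalization.exist_integer_multiples_of_finite (nonZeroDivisors (Polynomial (ZMod p))) X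
  choose x hx using hb
  have hinj := IsFractionRing.injective (Polynomial (ZMod p)) (K' p)
  obtain ⟨d, hd⟩ : ∃ d, d = algebraMap (Polynomial (ZMod p)) (K' p) b := ⟨_, rfl⟩
  have hd0 : d ≠ 0 := by
    rw [hd]
    intro h0
    have h1 : (b : Polynomial (ZMod p)) = 0 := by
      apply hinj
      rw [h0, map_zero]
    exact nonZeroDivisors.coe_ne_zero b h1
  have hx' : ∀ i, algebraMap (Polynomial (ZMod p)) (K' p) (x i) = d * X i := by
    intro i
    rw [hx i, Algebra.smul_def, hd]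
  have hsum : x 0 ^ p * (x 0).comp (-Polynomial.X) + x 1 ^ p * (x 1).comp (-Polynomial.X) +
        x 2 ^ p * (x 2).comp (-Polynomial.X) = 0 := by
    apply hinj
    rw [map_zero]
    simp only [map_add, map_mul, map_pow]
    rw [← hsg, ← hsg, ← hsg, hx', hx', hx']
    rw [Fin.sum_univ_three] at hX
    calc (d * X 0) ^ p * sg p (d * X 0) + (d * X 1) ^ p * sg p (d * X 1) + (d * X 2) ^ p * sg p (d * X 2)
        = d ^ p * sg p d * (X 0 ^ p * sg p (X 0) + X 1 ^ p * sg p (X 1) + X 2 ^ p * sg p (X 2)) := by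
          rw [map_mul, map_mul, map_mul, mul_pow, mul_pow, mul_pow]
          ring
      _ = 0 := by rw [hX, mul_zero]
  have hne : ¬ (x 0 = 0 ∧ x 1 = 0 ∧ x 2 = 0) := by
    rintro ⟨h0, h1, h2⟩
    have hxl : x l = 0 := by
      fin_cases l
      · exact h0
      · exact h1
      · exact h2
    have h3 := hx' l
    rw [hxl, map_zero] at h3
    exact mul_ne_zero hd0 hl h3.symm
  obtain ⟨a, b', c, habc, e1, e2, e3⟩ := hmain (x 0) (x 1) (x 2) hne hsum
  obtain ⟨κ, hκ⟩ : ∃ κ : ZMod p → K' p, ∀ t, κ t = algebraMap (Polynomial (ZMod p)) (K' p) (Polynomial.C t) :=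
    ⟨_, fun _ => rfl⟩
  have hκs : ∀ t, sg p (κ t) = κ t := by
    intro t
    rw [hκ, hsg, Polynomial.C_comp]
  have hκ0 : ∀ t, t ≠ 0 → κ t ≠ 0 := by
    intro t ht h0
    rw [hκ] at h0
    have h1 : Polynomial.C t = 0 := by
      apply hinj
      rw [h0, map_zero]
    exact ht (Polynomial.C_eq_zero.mp h1)
  have tr : ∀ i j s t, x i * Polynomial.C s = x j * Polynomial.C t → X i * κ s = X j * κ t := by
    intro i j s t hst
    have h1 := congrArg (algebraMap (Polynomial (ZMod p)) (K' p)) hst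
    rw [map_mul, map_mul, hx', hx', ← hκ, ← hκ, mul_assoc, mul_assoc] at h1
    exact mul_left_cancel₀ hd0 h1
  have f1 := tr _ _ _ _ e1
  have f2 := tr _ _ _ _ e2
  have f3 := tr _ _ _ _ e3
  have g1 := congrArg (sg p) f1
  have g2 := congrArg (sg p) f2
  have g3 := congrArg (sg p) f3
  rw [map_mul, map_mul, hκs, hκs] at g1 g2 g3
  by_cases ha : a = 0
  · by_cases hb' : b' = 0
    · have hc : c ≠ 0 := fun hc => habc ⟨ha, hb', hc⟩
      have hc' := hκ0 c hc
      apply mul_left_cancel₀ (mul_ne_zero hc' hc')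
      calc κ c * κ c * (X 0 * sg p (X 1)) = (X 0 * κ c) * (sg p (X 1) * κ c) := by ring
        _ = (X 2 * κ a) * (sg p (X 2) * κ b') := by rw [← f2, g1]
        _ = (X 2 * κ b') * (sg p (X 2) * κ a) := by ring
        _ = (X 1 * κ c) * (sg p (X 0) * κ c) := by rw [← f1, g2]
        _ = κ c * κ c * (X 1 * sg p (X 0)) := by ring
    · have hc' := hκ0 b' hb'
      apply mul_left_cancel₀ hc'
      calc κ b' * (X 0 * sg p (X 1)) = (X 0 * κ b') * sg p (X 1) := by ring
        _ = (X 1 * κ a) * sg p (X 1) := by rw [f3]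
        _ = X 1 * (sg p (X 1) * κ a) := by ring
        _ = X 1 * (sg p (X 0) * κ b') := by rw [← g3]
        _ = κ b' * (X 1 * sg p (X 0)) := by ring
  · have hc' := hκ0 a ha
    apply mul_left_cancel₀ hc'
    calc κ a * (X 0 * sg p (X 1)) = X 0 * (sg p (X 1) * κ a) := by ring
      _ = X 0 * (sg p (X 0) * κ b') := by rw [← g3]
      _ = (X 0 * κ b') * sg p (X 0) := by ring
      _ = (X 1 * κ a) * sg p (X 0) := by rw [f3]
      _ = κ a * (X 1 * sg p (X 0)) := by ring

theorem kpt (p : ℕ) [Fact p.Prime] (hp : p ≠ 2)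
    (hmain : ∀ x y z : Polynomial (ZMod p), ¬ (x = 0 ∧ y = 0 ∧ z = 0) →
      x ^ p * x.comp (-Polynomial.X) + y ^ p * y.comp (-Polynomial.X) +
        z ^ p * z.comp (-Polynomial.X) = 0 →
      ∃ a b c : ZMod p, ¬ (a = 0 ∧ b = 0 ∧ c = 0) ∧
        y * Polynomial.C c = z * Polynomial.C b ∧ z * Polynomial.C a = x * Polynomial.C c ∧
        x * Polynomial.C b = y * Polynomial.C a)
    (v : Fin 3 × Fin 3 → KK p) (hv : v ≠ 0) (h : Zero (KK p) (KK p) (SS p) v) :
    v (1, 0) = 0 := by
  obtain ⟨w, hw⟩ : ∃ w : Fin 3 × Fin 3 → K' p, ∀ i, w i = (v i : K' p) := ⟨_, fun _ => rfl⟩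
  have hws : ∀ i, sg p (w i) = w i := by
    intro i
    rw [hw]
    exact (v i).2
  have hw0 : w ≠ 0 := by
    intro h0
    apply hv
    funext i
    apply Subtype.ext
    have h1 := congrFun h0 i
    rw [hw] at h1
    exact h1
  have hz : ∀ f ∈ SS p, aeval w f = 0 := by
    intro f hf
    have h1 : w = algebraMap (KK p) (K' p) ∘ v := by
      funext i
      exact hw i
    rw [h1, MvPolynomial.aeval_algebraMap_apply, h f hf, map_zero]
  have heq := eqs_of_zero p hp (RingHom.id (K' p)) (fun c => rfl) w hz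
  obtain ⟨hr, hs, _⟩ := (eval_iff (TT p) p w).mp heq
  have hsgH := u_kpt_kpt_sgH p w hws
  -- diagonal
  obtain ⟨l, hl⟩ : ∃ l, hh (TT p) w l l ≠ 0 := by
    by_contra hcon
    push Not at hcon
    obtain ⟨i, j, hij⟩ := u_kpt_kpt_Hne p hp w hw0
    have h1 := hr i j j i
    rw [hcon i, zero_mul] at h1
    rcases mul_eq_zero.mp h1 with h2 | h2
    · exact hij h2
    · rw [← hsgH i j] at h2
      exact hij ((map_eq_zero_iff (sg p) (sg p).injective).mp h2)
  have hX : ∑ i, (hh (TT p) w i l) ^ p * sg p (hh (TT p) w i l) = 0 := by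
    have h1 := hs l
    have h2 : ∑ i, (hh (TT p) w i l) ^ p * sg p (hh (TT p) w i l) =
        hh (TT p) w l l * ∑ i, hh (TT p) w i i * (hh (TT p) w i l) ^ (p - 1) := by
      rw [Finset.mul_sum]
      apply Finset.sum_congr rfl
      intro i _
      have h3 : ∀ z : K' p, z ^ p = z ^ (p - 1) * z := by
        intro z
        rw [← pow_succ]
        have := (Fact.out : p.Prime).pos
        congr 1
        omega
      rw [hsgH i l, ← mul_assoc, hr l l i i, h3]
      ring
    rw [h2, h1, mul_zero]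
  have hsym := u_kpt_kpt_field p hmain (fun i => hh (TT p) w i l) l hl hX
  have hsym' : hh (TT p) w 0 l * sg p (hh (TT p) w 1 l) = hh (TT p) w 1 l * sg p (hh (TT p) w 0 l) := hsym
  rw [hsgH, hsgH] at hsym'
  have h01 : hh (TT p) w 0 1 = hh (TT p) w 1 0 := by
    apply mul_left_cancel₀ hl
    calc hh (TT p) w l l * hh (TT p) w 0 1 = hh (TT p) w l 1 * hh (TT p) w 0 l := hr l l 0 1
      _ = hh (TT p) w 0 l * hh (TT p) w l 1 := mul_comm _ _
      _ = hh (TT p) w 1 l * hh (TT p) w l 0 := hsym'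
      _ = hh (TT p) w l 0 * hh (TT p) w 1 l := mul_comm _ _
      _ = hh (TT p) w l l * hh (TT p) w 1 0 := (hr l l 1 0).symm
  have e01 : hh (TT p) w 0 1 = w (0, 1) + TT p * w (1, 0) := by
    unfold hh
    rw [if_neg (by decide), if_pos (by decide)]
  have e10 : hh (TT p) w 1 0 = w (0, 1) - TT p * w (1, 0) := by
    unfold hh
    rw [if_neg (by decide), if_neg (by decide)]
  rw [e01, e10] at h01
  have h2 : (2 : K' p) * (TT p * w (1, 0)) = 0 := by linear_combination h01
  have h20 := (sg_facts p).2.2.2.2 hp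
  have hT0 := (sg_facts p).2.2.2.1
  rcases mul_eq_zero.mp h2 with h3 | h3
  · exact absurd h3 h20
  · rcases mul_eq_zero.mp h3 with h4 | h4
    · exact absurd h4 hT0
    · apply Subtype.ext
      rw [hw] at h4
      exact h4

end

/-! ### kpt_ex -/

section

theorem u_kpt_ex_kpt_ex_hh (p : ℕ) [Fact p.Prime] (τ : K' p) (c : Fin 3 → ZMod p)
    (v0 : Fin 3 × Fin 3 → K' p)
    (hv0 : ∀ i j, v0 (i, j) = if i ≤ j then algebraMap (ZMod p) (K' p) (c i * c j) else 0)
    (i j : Fin 3) : hh τ v0 i j = algebraMap (ZMod p) (K' p) (c i * c j) := by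
  unfold hh
  split_ifs with h1 h2
  · subst h1
    rw [hv0, if_pos le_rfl]
  · rw [hv0, hv0, if_pos h2.le, if_neg (not_le.mpr h2), mul_zero, add_zero]
  · have h3 : j < i := lt_of_le_of_ne (not_lt.mp h2) (fun h => h1 h.symm)
    rw [hv0, hv0, if_pos h3.le, if_neg (not_le.mpr h3), mul_zero, sub_zero, mul_comm]

theorem kpt_ex (p : ℕ) [Fact p.Prime] (hp : p ≠ 2) :
    ∃ v : Fin 3 × Fin 3 → KK p, v ≠ 0 ∧ Zero (KK p) (KK p) (SS p) v := by
  obtain ⟨a, b, hab⟩ := ZMod.sq_add_sq p (-1)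
  have hp1 : p ≠ 0 := (Fact.out : p.Prime).ne_zero
  obtain ⟨c, hc⟩ : ∃ c : Fin 3 → ZMod p, c = ![a, b, 1] := ⟨_, rfl⟩
  have hc2 : c 2 = 1 := by rw [hc]; rfl
  have hsum : ∑ i, c i ^ 2 = 0 := by
    rw [hc, Fin.sum_univ_three]
    simp only [Matrix.cons_val_zero, Matrix.cons_val_one, Matrix.cons_val]
    rw [hab]
    ring
  obtain ⟨v, hv⟩ : ∃ v : Fin 3 × Fin 3 → KK p, v = fun ij =>
    if ij.1 ≤ ij.2 then (((c ij.1 * c ij.2).val : ℕ) : KK p) else 0 := ⟨_, rfl⟩
  have hv0 : ∀ i j, ((v (i, j) : KK p) : K' p) =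
      if i ≤ j then algebraMap (ZMod p) (K' p) (c i * c j) else 0 := by
    intro i j
    rw [hv]
    simp only
    split_ifs with h
    · have h1 : ((((c i * c j).val : ℕ) : KK p) : K' p) = (((c i * c j).val : ℕ) : K' p) :=
        map_natCast (KK p).subtype _
      rw [h1, ← map_natCast (algebraMap (ZMod p) (K' p)), ZMod.natCast_zmod_val]
    · rfl
  refine ⟨v, ?_, ?_⟩
  · intro h0
    have h1 := hv0 2 2
    rw [h0, if_pos le_rfl, hc2, mul_one, map_one] at h1
    exact zero_ne_one (α := K' p) h1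
  · intro f hf
    have hh1 := u_kpt_ex_kpt_ex_hh p (TT p) c (fun ij => ((v ij : KK p) : K' p)) hv0
    have key : ∀ g ∈ EqSet ((RingHom.id (K' p)) (TT p)) p,
        eval (fun ij => ((v ij : KK p) : K' p)) g = 0 := by
      rw [RingHom.id_apply, eval_iff]
      have hpow : ∀ x : ZMod p, x ^ 2 * x ^ (p - 1) = x ^ 2 := by
        intro x
        have h2 : 2 + (p - 1) = p + 1 := by omega
        rw [← pow_add, h2, pow_succ, ZMod.pow_card, sq]
      have hzero : ∀ l, ∑ i, (c i * c i) * (c i * c l) ^ (p - 1) = 0 := by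
        intro l
        have h3 : ∀ i ∈ (Finset.univ : Finset (Fin 3)),
            (c i * c i) * (c i * c l) ^ (p - 1) = c i ^ 2 * c l ^ (p - 1) := by
          intro i _
          rw [mul_pow, ← sq, ← mul_assoc, hpow]
        rw [Finset.sum_congr rfl h3, ← Finset.sum_mul, hsum, zero_mul]
      refine ⟨?_, ?_, ?_⟩
      · intro i j k l
        rw [hh1, hh1, hh1, hh1, ← map_mul, ← map_mul]
        congr 1
        ring
      · intro l
        have h4 : ∀ i ∈ (Finset.univ : Finset (Fin 3)),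
            hh (TT p) (fun ij => ((v ij : KK p) : K' p)) i i *
              (hh (TT p) (fun ij => ((v ij : KK p) : K' p)) i l) ^ (p - 1) =
            algebraMap (ZMod p) (K' p) ((c i * c i) * (c i * c l) ^ (p - 1)) := by
          intro i _
          rw [hh1, hh1, map_mul (algebraMap (ZMod p) (K' p)) (c i * c i), map_pow]
        rw [Finset.sum_congr rfl h4, ← map_sum, hzero, map_zero]
      · intro l
        have h4 : ∀ i ∈ (Finset.univ : Finset (Fin 3)),
            hh (TT p) (fun ij => ((v ij : KK p) : K' p)) i i *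
              (hh (TT p) (fun ij => ((v ij : KK p) : K' p)) l i) ^ (p - 1) =
            algebraMap (ZMod p) (K' p) ((c i * c i) * (c i * c l) ^ (p - 1)) := by
          intro i _
          rw [hh1, hh1, map_mul (algebraMap (ZMod p) (K' p)) (c i * c i), map_pow,
            mul_comm (c l) (c i)]
        rw [Finset.sum_congr rfl h4, ← map_sum, hzero, map_zero]
    have h5 := zero_of_eqs p (R := K' p) (RingHom.id (K' p)) (fun _ => rfl)
      (fun ij => ((v ij : KK p) : K' p)) key f hf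
    have h6 := MvPolynomial.aeval_algebraMap_apply (B := K' p) v f
    have h7 : algebraMap (KK p) (K' p) (aeval v f) = 0 := by
      rw [← h6]
      exact h5
    exact (map_eq_zero_iff _ (algebraMap (KK p) (K' p)).injective).mp h7

end

/-! ### Assembly -/

theorem zz_map {L : Type} [Field L] {R R' : Type} [CommRing R] [Algebra L R] [CommRing R']
    [Algebra L R'] (φ : R →ₐ[L] R') (τ : L) (W : Fin 3 → Fin 3 → R) (i : Fin 3 × Fin 3) :
    φ (zz R τ W i) = zz R' τ (fun i j => φ (W i j)) i := by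
  unfold zz
  split_ifs <;> simp

theorem par_map {L : Type} [Field L] {R R' : Type} [CommRing R] [Algebra L R] [CommRing R']
    [Algebra L R'] (φ : R →ₐ[L] R') (τ : L) (q : ℕ) (a : Fin 3 → R) (i : Fin 3 × Fin 3) :
    φ (par τ q a i) = par τ q (fun k => φ (a k)) i := by
  unfold par
  rw [zz_map]
  congr 1
  funext i j
  rw [map_mul, map_pow]
  congr 1
  unfold xv
  fin_cases i <;> simp [cross_apply]

theorem alg_K' (p : ℕ) [Fact p.Prime] : Algebra.IsAlgebraic (KK p) (K' p) := by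
  constructor
  intro x
  obtain ⟨-, hss, -, -, -⟩ := sg_facts p
  have hs : x + sg p x ∈ KK p := by
    show sg p (x + sg p x) = x + sg p x
    rw [map_add, hss, add_comm]
  have hn : x * sg p x ∈ KK p := by
    show sg p (x * sg p x) = x * sg p x
    rw [map_mul, hss, mul_comm]
  refine ⟨Polynomial.X ^ 2 - Polynomial.C (⟨_, hs⟩ : KK p) * Polynomial.X +
    Polynomial.C (⟨_, hn⟩ : KK p), ?_, ?_⟩
  · intro h0
    have := congrArg (fun f => Polynomial.coeff f 2) h0
    simp [Polynomial.coeff_X, Polynomial.coeff_C] at this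
  · rw [map_add, map_sub, map_mul, map_pow, Polynomial.aeval_X, Polynomial.aeval_C,
      Polynomial.aeval_C]
    show x ^ 2 - (x + sg p x) * x + x * sg p x = 0
    ring

set_option synthInstance.maxHeartbeats 400000 in
theorem emb (p : ℕ) [Fact p.Prime] (hp : p ≠ 2) :
    ∃ j : K' p →+* AlgebraicClosure (KK p),
      (∀ c : KK p, j (c : K' p) = algebraMap (KK p) (AlgebraicClosure (KK p)) c) ∧
      j (TT p) ≠ 0 ∧ (2 : AlgebraicClosure (KK p)) ≠ 0 ∧
      CharP (AlgebraicClosure (KK p)) p := by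
  haveI := alg_K' p
  let j : K' p →ₐ[KK p] AlgebraicClosure (KK p) := IsAlgClosed.lift
  obtain ⟨-, -, -, hT, h2⟩ := sg_facts p
  refine ⟨j.toRingHom, fun c => j.commutes c, ?_, ?_, ?_⟩
  · intro h
    apply hT
    exact (map_eq_zero (j.toRingHom)).mp h
  · intro h
    apply h2 hp
    have : j.toRingHom 2 = 0 := by rw [map_ofNat]; exact h
    exact (map_eq_zero (j.toRingHom)).mp this
  · haveI : CharP (K' p) p :=
      charP_of_injective_algebraMap (R := Polynomial (ZMod p)) (IsFractionRing.injective _ _) p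
    exact charP_of_injective_ringHom j.toRingHom.injective p

theorem smooth_X (p : ℕ) [Fact p.Prime] (hp : p ≠ 2) : SmoothCodim (KK p) (SS p) 6 := by
  intro v hv hz
  obtain ⟨j, hj, hτ, h2, hchar⟩ := emb p hp
  have hE := eqs_of_zero p hp j hj v hz
  obtain ⟨x, y, hx, hy, hxy, hF, hG⟩ := struct p (j (TT p)) hτ h2 v hv hE
  obtain ⟨k, hk⟩ : ∃ k, x k ≠ 0 := by
    by_contra hcon; push Not at hcon; exact hx (funext hcon)
  obtain ⟨l, hl⟩ : ∃ l, y l ≠ 0 := by
    by_contra hcon; push Not at hcon; exact hy (funext hcon)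
  set τ := j (TT p) with hτdef
  set f : Fin 6 → MvPolynomial (Fin 3 × Fin 3) (AlgebraicClosure (KK p)) :=
    ![mnr τ k l (k + 1) (l + 1), mnr τ k l (k + 1) (l + 2), mnr τ k l (k + 2) (l + 1),
        mnr τ k l (k + 2) (l + 2), FF τ p l, FF (-τ) p k] with hf
  have hmem : ∀ i, f i ∈ Ideal.span (Set.range f) := fun i => Ideal.subset_span ⟨i, rfl⟩
  refine ⟨f, ?_, smooth_b p τ hτ h2 v x y hxy hF hG k l hk hl, (HH τ k l) ^ (p + 1), ?_, ?_⟩
  · intro i
    rw [ideal_eq p hp j hj]
    apply Ideal.subset_span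
    fin_cases i
    · exact Or.inl ⟨k, l, k + 1, l + 1, rfl⟩
    · exact Or.inl ⟨k, l, k + 1, l + 2, rfl⟩
    · exact Or.inl ⟨k, l, k + 2, l + 1, rfl⟩
    · exact Or.inl ⟨k, l, k + 2, l + 2, rfl⟩
    · exact Or.inr (Or.inl ⟨l, rfl⟩)
    · exact Or.inr (Or.inr ⟨k, rfl⟩)
  · have e : eval v (HH τ k l) = hh τ v k l := by
      unfold HH hh
      split_ifs <;> simp
    rw [map_pow, e, hxy]
    exact pow_ne_zero _ (mul_ne_zero hk hl)
  · rw [ideal_eq p hp j hj]
    apply smooth_a τ p k l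
    · intro i i'
      have key : ∀ a b : Fin 3, a = b ∨ a = b + 1 ∨ a = b + 2 := by decide
      have c1 : i = k ∨ i = k + 1 ∨ i = k + 2 := key i k
      have c2 : i' = l ∨ i' = l + 1 ∨ i' = l + 2 := key i' l
      rcases c1 with rfl | rfl | rfl
      · have : mnr τ i l i i' = 0 := by unfold mnr; ring
        rw [this]; exact Ideal.zero_mem _
      · rcases c2 with rfl | rfl | rfl
        · have : mnr τ k i' (k + 1) i' = 0 := by unfold mnr; ring
          rw [this]; exact Ideal.zero_mem _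
        · exact hmem 0
        · exact hmem 1
      · rcases c2 with rfl | rfl | rfl
        · have : mnr τ k i' (k + 2) i' = 0 := by unfold mnr; ring
          rw [this]; exact Ideal.zero_mem _
        · exact hmem 2
        · exact hmem 3
    · exact hmem 4
    · exact hmem 5
    · exact (Fact.out : p.Prime).one_lt.le

/-- a good point of the parametrisation -/
theorem good_pt {L : Type} [Field L] [IsAlgClosed L] (p : ℕ) [Fact p.Prime] [CharP L p] :
    ∃ s : L, s ^ (p * p) ≠ s := by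
  haveI := (inferInstance : Infinite L)
  by_contra hcon
  push Not at hcon
  have hp1 : 1 < p := (Fact.out : p.Prime).one_lt
  have hpp : 1 < p * p := by nlinarith
  have hne : (Polynomial.X ^ (p * p) - Polynomial.X : Polynomial L) ≠ 0 := by
    intro h
    have := congrArg (fun f => Polynomial.coeff f (p * p)) h
    simp [Polynomial.coeff_X, hpp.ne] at this
  apply hne
  apply Polynomial.funext
  intro s
  simp [hcon s]

theorem eval_HH {A : Type} [CommRing A] (τ : A) (v : Fin 3 × Fin 3 → A) (i j : Fin 3) :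
    eval v (HH τ i j) = hh τ v i j := by
  unfold HH hh
  split_ifs <;> simp

theorem good_val {L : Type} [Field L] (p : ℕ) [Fact p.Prime] [CharP L p] (τ : L)
    (hτ : τ ≠ 0) (h2 : (2 : L) ≠ 0) (s : L) (hs : s ^ (p * p) ≠ s) :
    eval (par τ p ![s, 1, s])
      (HH τ 0 0 * HH τ 0 1 ^ (p * p) - HH τ 0 1 * HH τ 0 0 ^ (p * p)) ≠ 0 ∧
    par τ p ![s, 1, s] (1, 0) ≠ 0 := by
  have hW : ∀ i j, hh τ (par τ p ![s, 1, s]) i j =
      xv p ![s, 1, s] i * (![s, 1, s] : Fin 3 → L) j ^ p := by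
    intro i j
    have := hh_zz (R := L) τ hτ h2 (fun i j => xv p ![s, 1, s] i * (![s, 1, s] : Fin 3 → L) j ^ p) i j
    exact this
  have hx0 : xv p ![s, 1, s] 0 = s ^ (p * p) - s := by
    unfold xv
    simp [cross_apply, ← pow_mul]
  have hx1 : xv p ![s, 1, s] 1 = 0 := by
    unfold xv
    simp [cross_apply, ← pow_mul]
  have hd : s ^ (p * p) - s ≠ 0 := sub_ne_zero.mpr hs
  have hH00 : hh τ (par τ p ![s, 1, s]) 0 0 = (s ^ (p * p) - s) * s ^ p := by
    rw [hW, hx0]; simp
  have hH01 : hh τ (par τ p ![s, 1, s]) 0 1 = (s ^ (p * p) - s) := by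
    rw [hW, hx0]; simp
  have hH10 : hh τ (par τ p ![s, 1, s]) 1 0 = 0 := by
    rw [hW, hx1]; simp
  constructor
  · rw [map_sub, map_mul, map_mul, map_pow, map_pow, eval_HH, eval_HH, hH00, hH01]
    have e : (s ^ (p * p) - s) * s ^ p * (s ^ (p * p) - s) ^ (p * p) -
        (s ^ (p * p) - s) * ((s ^ (p * p) - s) * s ^ p) ^ (p * p) =
        -((s ^ (p * p) - s) ^ (p * p + 1) * (s ^ (p * p) - s) ^ p) := by
      have h1 : (s ^ (p * p) - s) ^ p = (s ^ (p * p)) ^ p - s ^ p := sub_pow_char _ _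
      rw [h1, mul_pow]
      ring
    rw [e]
    exact neg_ne_zero.mpr (mul_ne_zero (pow_ne_zero _ hd) (pow_ne_zero _ hd))
  · intro h0
    have h3 : hh τ (par τ p ![s, 1, s]) 0 1 - hh τ (par τ p ![s, 1, s]) 1 0 =
        2 * τ * par τ p ![s, 1, s] (1, 0) := by
      unfold hh
      simp
      ring
    rw [h0, hH01, hH10, mul_zero, sub_zero] at h3
    exact hd h3

theorem irred_X (p : ℕ) [Fact p.Prime] (hp : p ≠ 2) : GeomIrred (KK p) (SS p) := by
  obtain ⟨j, hj, hτ, h2, hchar⟩ := emb p hp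
  have hiff : ∀ v, Zero (KK p) (AlgebraicClosure (KK p)) (SS p) v ↔
      ∀ g ∈ EqSet (j (TT p)) p, eval v g = 0 := fun v =>
    ⟨eqs_of_zero p hp j hj v, zero_of_eqs p j hj v⟩
  constructor
  · obtain ⟨s, hs⟩ := good_pt (L := AlgebraicClosure (KK p)) p
    obtain ⟨-, h1⟩ := good_val p (j (TT p)) hτ h2 s hs
    refine ⟨par (j (TT p)) p ![s, 1, s], fun h => h1 (by rw [h]; rfl), ?_⟩
    rw [hiff]
    exact par_sol p (j (TT p)) hτ h2 _
  · intro f g h
    have := irred p (j (TT p)) hτ h2 f g (fun v hv => h v ((hiff v).mpr hv))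
    rcases this with h' | h'
    · exact Or.inl fun v hv => h' v ((hiff v).mp hv)
    · exact Or.inr fun v hv => h' v ((hiff v).mp hv)

theorem HH_hom {A : Type} [CommRing A] (τ : A) (i j : Fin 3) : (HH τ i j).IsHomogeneous 1 := by
  unfold HH
  split_ifs
  · exact isHomogeneous_X _ _
  · refine (isHomogeneous_X _ _).add ?_
    have := (isHomogeneous_C (Fin 3 × Fin 3) τ).mul (isHomogeneous_X A (j, i))
    rwa [zero_add] at this
  · refine (isHomogeneous_X _ _).sub ?_
    have := (isHomogeneous_C (Fin 3 × Fin 3) τ).mul (isHomogeneous_X A (i, j))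
    rwa [zero_add] at this

theorem rc_X (p : ℕ) [Fact p.Prime] (hp : p ≠ 2) : RatConn (KK p) (SS p) := by
  obtain ⟨j, hj, hτ, h2, hchar⟩ := emb p hp
  set τ := j (TT p) with hτdef
  refine ⟨HH τ 0 0 * HH τ 0 1 ^ (p * p) - HH τ 0 1 * HH τ 0 0 ^ (p * p),
    ⟨1 + 1 * (p * p), ?_⟩, ?_, ?_⟩
  · exact ((HH_hom τ 0 0).mul ((HH_hom τ 0 1).pow _)).sub
      ((HH_hom τ 0 1).mul ((HH_hom τ 0 0).pow _))
  · obtain ⟨s, hs⟩ := good_pt (L := AlgebraicClosure (KK p)) p
    obtain ⟨h3, h1⟩ := good_val p τ hτ h2 s hs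
    refine ⟨par τ p ![s, 1, s], fun h => h1 (by rw [h]; rfl), ?_, h3⟩
    exact zero_of_eqs p j hj _ (par_sol p τ hτ h2 _)
  · intro P Q hP hQ zP zQ eP eQ
    obtain ⟨b, hb⟩ := exc p τ hτ h2 P (eqs_of_zero p hp j hj P zP) eP
    obtain ⟨b', hb'⟩ := exc p τ hτ h2 Q (eqs_of_zero p hp j hj Q zQ) eQ
    let a : Fin 3 → Polynomial (AlgebraicClosure (KK p)) := fun i =>
      Polynomial.C (b i) + Polynomial.X * Polynomial.C (b' i - b i)
    have hev : ∀ (s : AlgebraicClosure (KK p)) i, (par τ p a i).eval s =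
        par τ p (fun k => b k + s * (b' k - b k)) i := by
      intro s i
      have := par_map (Polynomial.aeval s : Polynomial (AlgebraicClosure (KK p)) →ₐ[_] _) τ p a i
      rw [Polynomial.coe_aeval_eq_eval] at this
      rw [this]
      congr 1
      funext k
      simp [a]
    refine extract (SS p) (SS_hom p) P Q hP hQ (par τ p a) ?_ ?_ ?_
    · have := zero_of_eqs p (R := Polynomial (AlgebraicClosure (KK p)))
        ((Polynomial.C : AlgebraicClosure (KK p) →+* _).comp j) ?_ (par τ p a) ?_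
      · exact this
      · intro c
        rw [RingHom.comp_apply, hj]
        rfl
      · exact par_sol (R := Polynomial (AlgebraicClosure (KK p))) p τ hτ h2 a
    · intro i
      rw [hev 0 i, ← hb]
      congr 1
      funext k
      ring
    · intro i
      rw [hev 1 i, ← hb']
      congr 1
      funext k
      ring

theorem not_dense (p : ℕ) [Fact p.Prime] (hp : p ≠ 2) : ¬ DensePts (KK p) (SS p) := by
  intro h
  obtain ⟨j, hj, hτ, h2, hchar⟩ := emb p hp
  obtain ⟨s, hs⟩ := good_pt (L := AlgebraicClosure (KK p)) p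
  obtain ⟨-, h1⟩ := good_val p (j (TT p)) hτ h2 s hs
  have h3 : 3 ≤ p := by
    have := (Fact.out : p.Prime).two_le
    omega
  have hmain : ∀ x y z : Polynomial (ZMod p), ¬ (x = 0 ∧ y = 0 ∧ z = 0) →
      x ^ p * x.comp (-Polynomial.X) + y ^ p * y.comp (-Polynomial.X) +
        z ^ p * z.comp (-Polynomial.X) = 0 →
      ∃ a b c : ZMod p, ¬ (a = 0 ∧ b = 0 ∧ c = 0) ∧
        y * Polynomial.C c = z * Polynomial.C b ∧ z * Polynomial.C a = x * Polynomial.C c ∧
        x * Polynomial.C b = y * Polynomial.C a := by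
    intro x y z hne hE
    exact main_pts p h3 (max x.natDegree (max y.natDegree z.natDegree)) x y z
      (le_max_left _ _) ((le_max_left _ _).trans (le_max_right _ _))
      ((le_max_right _ _).trans (le_max_right _ _)) hne hE
  have := h (X (1, 0)) ⟨1, isHomogeneous_X _ _⟩ (fun v hv hz => by
    rw [eval_X]
    exact kpt p hp hmain v hv hz) (par (j (TT p)) p ![s, 1, s])
    (fun h => h1 (by rw [h]; rfl)) (zero_of_eqs p j hj _ (par_sol p (j (TT p)) hτ h2 _))
  rw [aeval_X] at this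
  exact h1 this

theorem inf_KK (p : ℕ) [Fact p.Prime] : Infinite (KK p) := by
  have hT : TT p * TT p ∈ KK p := by
    obtain ⟨-, -, h, -, -⟩ := sg_facts p
    show sg p (TT p * TT p) = TT p * TT p
    rw [map_mul, h]; ring
  let f : ℕ → KK p := fun n => (⟨_, hT⟩ : KK p) ^ n
  refine Infinite.of_injective f ?_
  intro m n hmn
  have h1 : ((TT p * TT p) ^ m : K' p) = (TT p * TT p) ^ n := by
    have := congrArg (fun x : KK p => (x : K' p)) hmn
    simpa [f] using this
  have h2 : (algebraMap (Polynomial (ZMod p)) (K' p)) (Polynomial.X ^ (2 * m)) =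
      (algebraMap (Polynomial (ZMod p)) (K' p)) (Polynomial.X ^ (2 * n)) := by
    rw [map_pow, map_pow, pow_mul, pow_mul]
    have e : (algebraMap (Polynomial (ZMod p)) (K' p)) Polynomial.X ^ 2 = TT p * TT p := by
      unfold TT; ring
    rw [e]; exact h1
  have h3 := IsFractionRing.injective (Polynomial (ZMod p)) (K' p) h2
  have h4 := congrArg Polynomial.natDegree h3
  rw [Polynomial.natDegree_X_pow, Polynomial.natDegree_X_pow] at h4
  omega

theorem main_result (p : ℕ) (hp : p.Prime) (hp2 : p ≠ 2) :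
    ∃ (K : Type) (_ : Field K) (S : Set (MvPolynomial (Fin 3 × Fin 3) K)),
      CharP K p ∧ Infinite K ∧ (∀ f ∈ S, ∃ n, f.IsHomogeneous n) ∧
      SmoothCodim K S 6 ∧ GeomIrred K S ∧ RatConn K S ∧
      (∃ v : Fin 3 × Fin 3 → K, v ≠ 0 ∧ Zero K K S v) ∧ ¬ DensePts K S := by
  haveI : Fact p.Prime := ⟨hp⟩
  haveI : CharP (K' p) p :=
    charP_of_injective_algebraMap (R := Polynomial (ZMod p)) (IsFractionRing.injective _ _) p
  refine ⟨KK p, inferInstance, SS p, ?_, inf_KK p, SS_hom p, smooth_X p hp2, irred_X p hp2,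
    rc_X p hp2, kpt_ex p hp2, not_dense p hp2⟩
  exact (RingHom.charP_iff (KK p).subtype (KK p).subtype.injective p).mpr inferInstance

end Pool.Agent.Helper825.RC
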